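import Pool.Agent.Helper62.BM.Stm4

/-!
# Cyclic covers `y ^ m = f(x) / (x - t)`: statements

The forms `u(x) f ^ α (x - t) ^ β dx`, `deg u < n = deg f`, `α = - r / m`, `β = - 1 - α`, have in the
basis `b_j` the connection matrix `Bk κ` with `κ = 1 + α = s / m`, `s = m - r`. The residues
`κ (e - e_l) e_l ^ *` are nilpotent, as for `m = 2`.
-/

set_option autoImplicit false

open Polynomial Matrix Finset Filter NumberField IsDedekindDomain

namespace Pool.Agent.Helper62.BM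

/-- The connection matrix in the basis `b_j` (`κ = 1 / 2` is `Bm`). -/
def Bk {F : Type} [Field F] {n : ℕ} (κ x : F) (a : Fin n → F) : Matrix (Fin n) (Fin n) F :=
  Matrix.of fun i j => if i = j then 0 else κ * (x - a j)⁻¹

/-- The connection matrix in the basis `x ^ l`. -/
noncomputable def Bkx {F : Type} [Field F] {n : ℕ} (κ x : F) (a : Fin n → F) :
    Matrix (Fin n) (Fin n) F :=
  Em a * Bk κ x a * (Em a)⁻¹

/-- KA. The `p`-curvature has rank one (proof of `S_Rank` with `h ^ q` replaced by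
`f ^ q (x - t) ^ q'`, `q' = p - 1 - q`: `N(u) = ∂_t u + (q + 1) ((u - c f) / (x - t) + c f')`,
`c = u(t) / f(t)`, `∂_t (u f ^ q (x - t) ^ q') = N(u) f ^ q (x - t) ^ q' - ∂_x (c f ^ (q + 1) (x - t) ^ q')`). -/
def K_Rank : Prop :=
  ∀ (F : Type) [Field F] (p : ℕ) [Fact p.Prime] [CharP F p] (D : Derivation ℤ F F),
    (∀ c : F, (⇑D)^[p] c = 0) → ∀ q : ℕ, q < p → ∀ (n : ℕ) (x : F) (a : Fin n → F), D x = 1 →
    (∀ j, D (a j) = 0) → Function.Injective a →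
    ∃ z l : Fin n → F, pcv D (Bk ((q : F) + 1) x a) p = Matrix.vecMulVec z l

/-- KB1. Proof of `S_LI`: at `a_l` the residue is `κ (e - e_l) e_l ^ *`; a horizontal vector of exact
degree `d' ≥ 1` has the leading vector `c` with `(d' - κ) c_i + κ S = 0`, `S = ∑ c`. -/
def K_LI : Prop :=
  ∀ (n m s d : ℕ), 2 ≤ n → 0 < s → s < m → ∃ N : ℕ, ∀ (C : Type) [Field C] (p : ℕ)
    [Fact p.Prime] [CharP C p], N < p → ∀ (D : Der (KX C)), IsDer D →
    ∀ (a : Fin n → C), Function.Injective a → ∀ (v : Fin n → C[X]), (∀ i, (v i).natDegree ≤ d) →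
    pcv D (Bk ((s : KX C) / (m : KX C)) (tX C) (aX a)) p *ᵥ (fun i => ι C (v i)) = 0 → v = 0

/-- KB2. The rows (the dual connection `- Bᵀ`): `∑_(j ≠ l) v_j (a_l) = 0`; leading vector
`(d' + κ) c_j = κ S`, so `(m d' - (n - 1) s) S = 0`. -/
def K_LID : Prop :=
  ∀ (n m s d : ℕ), 2 ≤ n → 0 < s → s < m → ¬ m ∣ (n - 1) * s → ∃ N : ℕ, ∀ (C : Type) [Field C]
    (p : ℕ) [Fact p.Prime] [CharP C p], N < p → ∀ (D : Der (KX C)), IsDer D →
    ∀ (a : Fin n → C), Function.Injective a → ∀ (v : Fin n → C[X]), (∀ i, (v i).natDegree ≤ d) →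
    (fun i => ι C (v i)) ᵥ* pcv D (Bk ((s : KX C) / (m : KX C)) (tX C) (aX a)) p = 0 → v = 0

/-- KB3. Proof of `S_Comm`; a horizontal matrix of exact degree `m'` with leading matrix `Y`:
`m' Y + κ (J Y - Y J) = 0`, so `𝟙ᵀ Y = 0` and `m' Y = κ Y J`, so `m m' = n s` or `Y = 0`. All
horizontal matrices have degree `≤ n`. At the end `K_LID` for the rows of `y - λ`. -/
def K_Comm : Prop :=
  ∀ (n m s d : ℕ), 2 ≤ n → 0 < s → s < m → ¬ m ∣ (n - 1) * s → ∃ N : ℕ, ∀ (C : Type) [Field C]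
    (p : ℕ) [Fact p.Prime] [CharP C p], N < p → ∀ (D : Der (KX C)), IsDer D →
    ∀ (a : Fin n → C), Function.Injective a → ∀ x : Matrix (Fin n) (Fin n) C[X],
    (∀ i j, (x i j).natDegree ≤ d) →
    x.map (ι C) * pcv D (Bk ((s : KX C) / (m : KX C)) (tX C) (aX a)) p =
      pcv D (Bk ((s : KX C) / (m : KX C)) (tX C) (aX a)) p * x.map (ι C) →
    ∃ c : C[X], x = Matrix.diagonal fun _ => c

/-- KB4. No form. `T(x) = D x + B x + x Bᵀ` (`S_PcvT` with `B₁ = B₂ = B`), residues nilpotent; a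
horizontal `x` of exact degree `m'` with leading matrix `Y`: `(m' - 2 κ) Y + κ (J Y + Y J) = 0`, so
`(m m' + (2 n - 2) s) 𝟙ᵀ Y 𝟙 = 0`, `(m m' + (n - 2) s) 𝟙ᵀ Y = 0`, `(m m' - 2 s) Y = 0`. -/
def K_NoForm : Prop :=
  ∀ (n m s d : ℕ), 3 ≤ n → 0 < s → s < m → 2 * s ≠ m → ∃ N : ℕ, ∀ (C : Type) [Field C]
    (p : ℕ) [Fact p.Prime] [CharP C p], N < p → ∀ (D : Der (KX C)), IsDer D →
    ∀ (a : Fin n → C), Function.Injective a → ∀ x : Matrix (Fin n) (Fin n) C[X],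
    (∀ i j, (x i j).natDegree ≤ d) →
    pcv D (Bk ((s : KX C) / (m : KX C)) (tX C) (aX a)) p * x.map (ι C) +
      x.map (ι C) * (pcv D (Bk ((s : KX C) / (m : KX C)) (tX C) (aX a)) p)ᵀ = 0 → x = 0

/-- KC. The Lie algebra `s = {A | tr (θ A) = 0 for all θ with tr (θ ψ) = 0}` contains `sl_n`. Proof in
the sheet `helper62_KLie.md`. -/
def K_Lie : Prop :=
  ∀ (k L : Type) [Field k] [CharZero k] [Field L] [Algebra k L] (n : ℕ)
    (ψ : Matrix (Fin n) (Fin n) L), 2 ≤ n →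
    (∃ z l : Fin n → L, ψ = Matrix.vecMulVec z l) → ψ ≠ 0 →
    (∀ v : Fin n → k, ψ *ᵥ (fun i => algebraMap k L (v i)) = 0 → v = 0) →
    (∀ v : Fin n → k, (fun i => algebraMap k L (v i)) ᵥ* ψ = 0 → v = 0) →
    (∀ x : Matrix (Fin n) (Fin n) k, x.map (algebraMap k L) * ψ = ψ * x.map (algebraMap k L) →
      ∃ c : k, x = Matrix.diagonal fun _ => c) →
    (3 ≤ n → ∀ x : Matrix (Fin n) (Fin n) k, ψ * x.map (algebraMap k L) +
      x.map (algebraMap k L) * ψᵀ = 0 → x = 0) →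
    (∀ θ : Matrix (Fin n) (Fin n) k, (θ.map (algebraMap k L) * ψ).trace = 0 →
      ψ * θ.map (algebraMap k L) - θ.map (algebraMap k L) * ψ ∈
        Submodule.span L {η : Matrix (Fin n) (Fin n) L | ∃ θ' : Matrix (Fin n) (Fin n) k,
          (θ'.map (algebraMap k L) * ψ).trace = 0 ∧ η = θ'.map (algebraMap k L)}) →
    ∀ A : Matrix (Fin n) (Fin n) k, A.trace = 0 → ∀ θ : Matrix (Fin n) (Fin n) k,
      (θ.map (algebraMap k L) * ψ).trace = 0 → (θ * A).trace = 0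

/-- KD. If the relations of a `d × n` matrix `Y` of rank `d < n` are stable under `sl_n`, there are
none. Proof: a relation `G` of minimal degree; for `l ≠ m`, `∑_i Y_(i, l) (∂G/∂Y_(i, m)) (Y) = 0`, and the
numbers `∑_i Y_(i, m) (∂G/∂Y_(i, m)) (Y)` are all equal; for a column `m` such that the other columns have
rank `d` all `(∂G/∂Y_(i, m)) (Y)` are zero; so these numbers are zero, and all the derivatives are. -/
def K_Chart : Prop :=
  ∀ (k L : Type) [Field k] [CharZero k] [Field L] [Algebra k L] (d n : ℕ), d < n →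
    ∀ (Y : Matrix (Fin d) (Fin n) L), (∀ c : Fin d → L, c ᵥ* Y = 0 → c = 0) →
    (∀ A : Matrix (Fin n) (Fin n) k, A.trace = 0 →
      ∀ G : MvPolynomial (Fin d × Fin n) k,
        MvPolynomial.aeval (fun s : Fin d × Fin n => Y s.1 s.2) G = 0 →
        ∑ s : Fin d × Fin n, (Y * A.map (algebraMap k L)) s.1 s.2 *
          MvPolynomial.aeval (fun s : Fin d × Fin n => Y s.1 s.2)
            (MvPolynomial.pderiv s G) = 0) →
    AlgebraicIndependent k fun s : Fin d × Fin n => Y s.1 s.2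

/-- KE. As `S_Con`, with `K_LI`, `K_LID`, `K_Comm`, `K_NoForm`, `K_Rank` (for `q` with
`q + 1 = s / m` in `F_p`) and `K_Lie`. -/
def K_Con : Prop :=
  ∀ (n m s : ℕ), 2 ≤ n → 0 < s → s < m → ¬ m ∣ (n - 1) * s → 2 * s ≠ m →
    ∀ (U : Ultrafilter ℕ) (C : ℕ → Type) [∀ i, Field (C i)] (p : ℕ → ℕ)
    [∀ i, Fact (p i).Prime] [∀ i, CharP (C i) (p i)],
    (∀ N : ℕ, ∀ᶠ i in (U : Filter ℕ), N < p i) → ∀ (a : ∀ i, Fin n → C i),
    (∀ i, Function.Injective (a i)) → ∀ (Df : ∀ i, Der (KX (C i))),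
    (∀ i, IsDer (Df i)) → ∀ (f : KX (UP U C) →+* UP U fun i => KX (C i)),
    (∀ q : Polynomial (∀ i, C i), f (ι _ (q.map (mk U))) =
        mk U fun i => ι (C i) (q.map (Pi.evalRingHom C i))) →
    (∀ (Dk : Der (KX (UP U C))), IsDer Dk → ∀ z, f (Dk z) = der U Df (f z)) →
    ∀ A : Matrix (Fin n) (Fin n) (KX (UP U C)), A.trace = 0 →
      ∀ θ : Matrix (Fin n) (Fin n) (KX (UP U C)),
      (θ.map f * mkM U (fun i => pcv (Df i) (Bkx ((s : KX (C i)) / (m : KX (C i))) (tX (C i))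
        (aX (a i))) (p i))).trace = 0 → (θ * A).trace = 0

/-- KF. As `S_Ind2`, with `K_Con` and `K_Chart`. -/
def K_Ind : Prop :=
  ∀ (n m s d : ℕ), 2 ≤ n → 0 < s → s < m → ¬ m ∣ (n - 1) * s → 2 * s ≠ m → d < n →
    ∀ (U : Ultrafilter ℕ) (C : ℕ → Type) [∀ i, Field (C i)] (p : ℕ → ℕ)
    [∀ i, Fact (p i).Prime] [∀ i, CharP (C i) (p i)],
    (∀ N : ℕ, ∀ᶠ i in (U : Filter ℕ), N < p i) → ∀ (a : ∀ i, Fin n → C i),
    (∀ i, Function.Injective (a i)) → ∀ (D : ∀ i, Der (KX (C i))),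
    (∀ i, IsDer (D i)) → ∀ (τ : ∀ i, KX (C i) →+* KX (C i)),
    (∀ i q, τ i (ι (C i) q) = ι (C i) (expand (C i) (p i) q)) →
    ∀ (f' : KX (UP U fun i => KX (C i)) →+* UP U fun i => KX (C i)),
    (∀ q : Polynomial (∀ i, KX (C i)), f' (ι _ (q.map (mk U))) =
        mk U fun i => (q.map (Pi.evalRingHom (fun i => KX (C i)) i)).eval₂ (τ i) (tX (C i))) →
    (∀ (Dk : Der (KX (UP U fun i => KX (C i)))),
      IsDer Dk → ∀ z, f' (Dk z) = der U D (f' z)) →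
    ∀ (Y : ∀ i, Matrix (Fin d) (Fin n) (KX (C i))),
    (∀ i j l, D i ((Y i * Em (aX (a i))) j l) =
      ((Y i * Em (aX (a i))) * Bk ((s : KX (C i)) / (m : KX (C i))) (tX (C i)) (aX (a i))) j l) →
    (∀ i, ∀ c : Fin d → KX (C i), c ᵥ* Y i = 0 → c = 0) →
    ∀ G : MvPolynomial (Fin d × Fin n) (KX (UP U fun i => KX (C i))),
      MvPolynomial.eval₂ f' (fun u : Fin d × Fin n => mk U fun i => Y i u.1 u.2) G = 0 → G = 0

/-- KG. The nonvanishing (`nv_core`). -/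
def K_NV : Prop :=
  ∀ (n m s d : ℕ), 2 ≤ n → 0 < s → s < m → ¬ m ∣ (n - 1) * s → 2 * s ≠ m → d < n →
    ∀ (e A₀ β : ℕ), ∃ p₀ : ℕ, ∀ (p : ℕ) [Fact p.Prime] (C : Type) [Field C]
    [CharP C p], p₀ ≤ p → ∀ (a : Fin n → C), Function.Injective a →
    ∀ (D : Der (KX C)), IsDer D → ∀ (Y : Matrix (Fin d) (Fin n) (KX C)),
    (∀ i j, D ((Y * Em (aX a)) i j) =
      ((Y * Em (aX a)) * Bk ((s : KX C) / (m : KX C)) (tX C) (aX a)) i j) →
    (∀ c : Fin d → KX C, c ᵥ* Y = 0 → c = 0) →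
    NVp C p (fun u : Fin d × Fin n => Y u.1 u.2) e A₀ β

/-- The functional `x ^ l ↦ [x ^ (p (i + 1) - 1)] (x ^ l f ^ q (x - t) ^ (p - 1 - q))`. -/
noncomputable def yk {C : Type} [CommRing C] (p q : ℕ) {n : ℕ} (a : Fin n → C) (i l : ℕ) : C[X] :=
  (X ^ l * ((∏ j, (X - Polynomial.C (Polynomial.C (a j)))) ^ q *
    (X - Polynomial.C X) ^ (p - 1 - q)) : C[X][X]).coeff (p * (i + 1) - 1)

/-- The matrix of the functionals, `i < d`, `l < n`. -/
noncomputable def YK {C : Type} [CommRing C] (p q d : ℕ) {n : ℕ} (a : Fin n → C) :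
    Matrix (Fin d) (Fin n) C[X] :=
  Matrix.of fun i l => yk p q a i l

/-- KH1. Horizontality (as `S_HWb`). -/
def K_HWb : Prop :=
  ∀ (C : Type) [Field C] (p : ℕ) [Fact p.Prime] [CharP C p] (q : ℕ), q < p → ∀ (d n : ℕ)
    (a : Fin n → C) (i : Fin d) (j : Fin n),
    (X - Polynomial.C (a j)) * derivative ((YK p q d a * (Em a).map Polynomial.C) i j) =
      ((q : C[X]) + 1) * ∑ u ∈ univ.erase j, (YK p q d a * (Em a).map Polynomial.C) i u

/-- KH2. The degrees. -/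
def K_HWdeg : Prop :=
  ∀ (C : Type) [Field C] (p q n : ℕ) (a : Fin n → C) (i l : ℕ),
    (yk p q a i l).natDegree ≤ p - 1 - q

/-- The number of the regular differential forms. -/
def dK (n m r : ℕ) : ℕ := (n - 1) * r / m + 1

/-- KH3. The functionals are linearly independent (the Cartier operator is surjective). Proof in the
sheet `helper62_KLie.md`. -/
def K_HWrank : Prop :=
  ∀ (n m r : ℕ), 2 ≤ n → 0 < r → r < m → ¬ m ∣ (n - 1) * r → ∃ N : ℕ, ∀ (C : Type) [Field C]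
    (p : ℕ) [Fact p.Prime] [CharP C p], N < p → m ∣ p - 1 → ∀ (a : Fin n → C),
    Function.Injective a → ∀ c : Fin (dK n m r) → KX C,
    c ᵥ* ((YK p (r * ((p - 1) / m)) (dK n m r) a).map (ι C)) = 0 → c = 0

/-- KI. Few zeros, over a domain. As `S_FewG` but easier: `σ = Fin d × Fin n`, `S = Y`, `P = 1`, the `Z l`
are `G` of the entries and the monomials of degree `≤ deg G` in the entries of `Y`. Here
`κ = q + 1 = (m - r) / m` in `k` for `q = r (p - 1) / m`. -/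
def K_FewG : Prop :=
  ∀ (n m r : ℕ), 2 ≤ n → 0 < r → r < m → ¬ m ∣ (n - 1) * r → 2 * r ≠ m →
    ∀ (A : Type) [CommRing A] [IsDomain A] [CharZero A] (a : Fin n → A),
    Function.Injective a → ∀ G : MvPolynomial (Fin (dK n m r) × Fin (dK n m r)) A[X], G ≠ 0 →
    ∀ ε : ℝ, 0 < ε → ∃ (p₀ : ℕ) (a₀ : A), a₀ ≠ 0 ∧
      ∀ (p : ℕ) [Fact p.Prime] (k : Type) [Field k] [CharP k p] (φ : A →+* k), p₀ ≤ p →
      m ∣ p - 1 → φ a₀ ≠ 0 → ∀ T : Finset k, (∀ t ∈ T, t ^ p = t ∧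
        MvPolynomial.eval₂ ((evalRingHom t).comp (mapRingHom φ))
          (fun u : Fin (dK n m r) × Fin (dK n m r) =>
          (yk p (r * ((p - 1) / m)) (fun j => φ (a j)) u.1 u.2).eval t) G = 0) →
        (T.card : ℝ) ≤ ε * p

/-- The block with index `r` of the Hasse-Witt matrix of `y ^ m = f(x) (x - s) ^ (m - 1)` over a field
with `q` elements, `m ∣ q - 1`: the coefficients of `x ^ (q i - j)` in
`f ^ (r (q - 1) / m) (x - s) ^ ((m - r) (q - 1) / m)`, `1 ≤ i, j ≤ dK`. -/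
noncomputable def hwK {R : Type} [CommRing R] (q n m r : ℕ) (f : R[X]) (s : R) :
    Matrix (Fin (dK n m r)) (Fin (dK n m r)) R :=
  Matrix.of fun i j => (X ^ ((j : ℕ) + 1) * f ^ (r * ((q - 1) / m)) *
    (X - C s) ^ ((m - r) * ((q - 1) / m))).coeff (q * ((i : ℕ) + 1))

/-- `y ^ m = f(x) (x - s) ^ (m - 1)`, `deg f = n`, has good ordinary reduction at `v`, and the
polynomials `G r` in `s` and the entries of the blocks do not vanish at `v`. -/
def GoodK {K : Type} [Field K] [NumberField K] (n m : ℕ) (f : (𝓞 K)[X])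
    (G : ∀ r, MvPolynomial (Fin (dK n m r) × Fin (dK n m r)) (𝓞 K)[X]) (s : 𝓞 K)
    (v : HeightOneSpectrum (𝓞 K)) : Prop :=
  (m : 𝓞 K) ∉ v.asIdeal ∧ (rd v f).natDegree = n ∧ (rd v ((X - C s) * f)).Separable ∧
    ∀ r, 0 < r → r < m →
      (hwK (Ideal.absNorm v.asIdeal) n m r (rd v f)
        (algebraMap (𝓞 K) v.asIdeal.ResidueField s)).det ≠ 0 ∧
      MvPolynomial.eval₂ ((algebraMap (𝓞 K) v.asIdeal.ResidueField).comp (evalRingHom s))
        (fun u => hwK (Ideal.absNorm v.asIdeal) n m r (rd v f)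
          (algebraMap (𝓞 K) v.asIdeal.ResidueField s) u.1 u.2) (G r) ≠ 0

open Classical in
/-- KJ. The result at the places. As `S_FewK`; for `2 r = m` use `S_FewG` (`yk` is `YX` there); the
leading coefficient `c` of `f` multiplies the block by `c ^ (r (p - 1) / m)`, an `m`-th root of
unity: `A ∋ ζ_m` and `G_r` is replaced by `det · ∏_(ζ ^ m = 1) G_r(s, ζ W)`. -/
def K_FewK : Prop :=
  ∀ (K : Type) [Field K] [NumberField K] (n m : ℕ), 2 ≤ n → 2 ≤ m → Nat.Coprime m (n - 1) →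
    ∀ (f φ : (𝓞 K)[X]), f.natDegree = n → (f.map (algebraMap (𝓞 K) K)).Separable →
    1 ≤ φ.natDegree → ∀ G : ∀ r, MvPolynomial (Fin (dK n m r) × Fin (dK n m r)) (𝓞 K)[X],
    (∀ r, G r ≠ 0) → ∀ ε : ℝ, 0 < ε →
    {v : HeightOneSpectrum (𝓞 K) | (Ideal.absNorm v.asIdeal).Prime ∧
      m ∣ Ideal.absNorm v.asIdeal - 1 ∧
      ε * Ideal.absNorm v.asIdeal < (((range (Ideal.absNorm v.asIdeal)).filter
        fun t : ℕ => ¬ GoodK n m f G (φ.eval (t : 𝓞 K)) v).card : ℝ)}.Finite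

end Pool.Agent.Helper62.BM
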