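import Pool.Agent.Helper62.BM.UP

/-!
# Statements on the ultraproduct level
-/

set_option autoImplicit false

open Polynomial Matrix Finset Filter

namespace Pool.Agent.Helper62.BM

/-- N1. The field of rational functions over the ultraproduct `Ĉ = ∏ C i / U` maps to `∏ F i / U`, if the
polynomials of bounded degree have no zero `x i`. Proof: every polynomial over `Ĉ` is `q.map (mk U)`
for a polynomial `q` over the product ring `∏ C i` (of the same degree). The map is compatible with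
`d / dX`. -/
def S_Emb : Prop :=
  ∀ (U : Ultrafilter ℕ) (C F : ℕ → Type) [∀ i, Field (C i)] [∀ i, Field (F i)]
    (c : ∀ i, C i →+* F i) (x : ∀ i, F i),
    (∀ d : ℕ, ∀ᶠ i in (U : Filter ℕ), ∀ q : (C i)[X], q.natDegree ≤ d →
      q.eval₂ (c i) (x i) = 0 → q = 0) →
    ∃ f : KX (UP U C) →+* UP U F,
      (∀ q : Polynomial (∀ i, C i), f (ι _ (q.map (mk U))) =
        mk U fun i => (q.map (Pi.evalRingHom C i)).eval₂ (c i) (x i)) ∧
      ∀ (D : Der (KX (UP U C))) (DF : ∀ i, Der (F i)),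
        IsDer D → (∀ i y, DF i (c i y) = 0) → (∀ i, DF i (x i) = 1) →
        ∀ z, f (D z) = der U DF (f z)

/-- N2. An internal iteration: a subspace stable under the connection
`θ ↦ D θ + B θ - θ B` is stable under its internal `p`-th power. Proof: `W` is finitely generated; lift
generators `w j` and the coefficients `c` in `∇ (w j) = ∑ c j k • w k` to sequences; for almost all
`i` the equation holds at `i`, and then `∇ ^ (p i)` maps the span of the `w j` at `i` to itself. Use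
`S_PcvT` with `B₁ = B`, `B₂ = - Bᵀ` and `S_PcvD`. -/
def S_DPM : Prop :=
  ∀ (U : Ultrafilter ℕ) (F : ℕ → Type) [∀ i, Field (F i)] (p : ℕ → ℕ) [∀ i, Fact (p i).Prime]
    [∀ i, CharP (F i) (p i)] (D : ∀ i, Der (F i)),
    (∀ i c, (⇑(D i))^[p i] c = 0) → ∀ (n : ℕ) (B : ∀ i, Matrix (Fin n) (Fin n) (F i))
    (W : Submodule (UP U F) (Matrix (Fin n) (Fin n) (UP U F))),
    (∀ θ ∈ W, (θ.map (der U D) + mkM U B * θ - θ * mkM U B) ∈ W) → ∀ θ ∈ W,
      (mkM U (fun i => pcv (D i) (B i) (p i)) * θ - θ * mkM U (fun i => pcv (D i) (B i) (p i))) ∈ W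

/-- N3. The `p`-th power of the derivation `D Y = Y B` is the derivation `Y ↦ Y ψ`. Proof:
`T ^ p` is a derivation in characteristic `p` (Leibniz) which kills the constants, and
`T ^ n Y = Y M_n`, `M_(n + 1) = D M_n + B M_n`, `M_p = ψ = pcv`. -/
def S_Poly : Prop :=
  ∀ (F : Type) [Field F] (p : ℕ) [Fact p.Prime] [CharP F p] (D : Derivation ℤ F F),
    (∀ c : F, (⇑D)^[p] c = 0) → ∀ (m n : ℕ) (B : Matrix (Fin n) (Fin n) F)
    (T : Derivation ℤ (MvPolynomial (Fin m × Fin n) F) (MvPolynomial (Fin m × Fin n) F)),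
    (∀ c, T (MvPolynomial.C c) = MvPolynomial.C (D c)) →
    (∀ s : Fin m × Fin n, T (MvPolynomial.X s) =
      ∑ l, MvPolynomial.X (s.1, l) * MvPolynomial.C (B l s.2)) →
    ∀ G, (⇑T)^[p] G = ∑ s : Fin m × Fin n,
      (∑ l, MvPolynomial.X (s.1, l) * MvPolynomial.C (pcv D B p l s.2)) * MvPolynomial.pderiv s G

/-- N4. The internal iteration for polynomials (same proof as N2, with `S_Poly`; polynomials over
`UP U F` are images of polynomials over the product ring `∏ F i`). -/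
def S_DPP : Prop :=
  ∀ (U : Ultrafilter ℕ) (F : ℕ → Type) [∀ i, Field (F i)] (p : ℕ → ℕ) [∀ i, Fact (p i).Prime]
    [∀ i, CharP (F i) (p i)] (D : ∀ i, Der (F i)),
    (∀ i c, (⇑(D i))^[p i] c = 0) → ∀ (m n : ℕ) (B : ∀ i, Matrix (Fin n) (Fin n) (F i))
    (T : Derivation ℤ (MvPolynomial (Fin m × Fin n) (UP U F))
      (MvPolynomial (Fin m × Fin n) (UP U F))),
    (∀ c, T (MvPolynomial.C c) = MvPolynomial.C (der U D c)) →
    (∀ s : Fin m × Fin n, T (MvPolynomial.X s) =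
      ∑ l, MvPolynomial.X (s.1, l) * MvPolynomial.C (mkM U B l s.2)) →
    ∀ W : Submodule (UP U F) (MvPolynomial (Fin m × Fin n) (UP U F)), W.FG →
    (∀ G ∈ W, T G ∈ W) → ∀ G ∈ W, (∑ s : Fin m × Fin n,
      (∑ l, MvPolynomial.X (s.1, l) *
        MvPolynomial.C (mkM U (fun i => pcv (D i) (B i) (p i)) l s.2)) *
        MvPolynomial.pderiv s G) ∈ W

/-- The connection matrix in the basis `x ^ l`. -/
noncomputable def Bx {F : Type} [Field F] {n : ℕ} (x : F) (a : Fin n → F) :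
    Matrix (Fin n) (Fin n) F :=
  Em a * Bm x a * (Em a)⁻¹

/-- N5. The conclusion of `S_Lie` for the family (in the basis `x ^ l`), from `S_LI`, `S_Comm`,
`S_Rank`, `S_QbHor`, `S_EQ`, `S_EDet`, `S_QxDet`, `S_PcvT`, `S_PcvD`, `S_DPM` and `S_Lie`.
Here `k = KX Ĉ`, `Ĉ = UP U C`, `f : k → UP U (KX C i)` the natural map. -/
def S_Con : Prop :=
  ∀ (g : ℕ), 1 ≤ g → ∀ (U : Ultrafilter ℕ) (C : ℕ → Type) [∀ i, Field (C i)] (p : ℕ → ℕ)
    [∀ i, Fact (p i).Prime] [∀ i, CharP (C i) (p i)],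
    (∀ N : ℕ, ∀ᶠ i in (U : Filter ℕ), N < p i) → ∀ (a : ∀ i, Fin (2 * g) → C i),
    (∀ i, Function.Injective (a i)) → ∀ (Df : ∀ i, Der (KX (C i))),
    (∀ i, IsDer (Df i)) → ∀ (f : KX (UP U C) →+* UP U fun i => KX (C i)),
    (∀ q : Polynomial (∀ i, C i), f (ι _ (q.map (mk U))) =
        mk U fun i => ι (C i) (q.map (Pi.evalRingHom C i))) →
    (∀ (Dk : Der (KX (UP U C))), IsDer Dk → ∀ z, f (Dk z) = der U Df (f z)) →
    ∀ A : Matrix (Fin (2 * g)) (Fin (2 * g)) (KX (UP U C)),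
      A * Qx (tX (UP U C)) (aX fun j => mk U fun i => a i j) +
        Qx (tX (UP U C)) (aX fun j => mk U fun i => a i j) * Aᵀ = 0 →
      ∀ θ : Matrix (Fin (2 * g)) (Fin (2 * g)) (KX (UP U C)),
      (θ.map f * mkM U (fun i => pcv (Df i) (Bx (tX (C i)) (aX (a i))) (p i))).trace = 0 →
      (θ * A).trace = 0

/-- N6. The entries of `S` are algebraically independent over `k = KX Ĉ`, where
`Ĉ = UP U (KX (C i))` and `k` is embedded in `UP U (KX (C i))` by `f'` : on `Ĉ` it is the substitution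
`T ↦ X ^ p` and `X ↦ X`. Proof. Let `I` be the ideal of the relations of `Y` over `k`; it is stable under
the derivation `T` of `k[Y]` with `T Y = Y Bx`. For `G ∈ I` of degree `≤ d` let `W` be the span over
`UP U (KX (KX (C i)))` of the elements of `I` of degree `≤ d`. By `S_DPP` it contains `∑ (Y ψ)_s ∂_s G`. For
every linear form `μ` on `k[Y]` which is zero on `I` the matrix `θ_(m, l) = μ (∑_i Y_(i, l) ∂_(i, m) G)`
satisfies `tr (θ ψ) = 0`, and `S_Con` gives `tr (θ A) = 0` for the `A` in the Lie algebra. Hence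
`∑ (Y A)_s ∂_s G ∈ I`, and `S_Chart` applies. -/
def S_Ind : Prop :=
  ∀ (g : ℕ), 1 ≤ g → ∀ (U : Ultrafilter ℕ) (C : ℕ → Type) [∀ i, Field (C i)] (p : ℕ → ℕ)
    [∀ i, Fact (p i).Prime] [∀ i, CharP (C i) (p i)],
    (∀ N : ℕ, ∀ᶠ i in (U : Filter ℕ), N < p i) → ∀ (a : ∀ i, Fin (2 * g) → C i),
    (∀ i, Function.Injective (a i)) → ∀ (D : ∀ i, Der (KX (C i))),
    (∀ i, IsDer (D i)) → ∀ (τ : ∀ i, KX (C i) →+* KX (C i)),
    (∀ i q, τ i (ι (C i) q) = ι (C i) (expand (C i) (p i) q)) →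
    ∀ (f' : KX (UP U fun i => KX (C i)) →+* UP U fun i => KX (C i)),
    (∀ q : Polynomial (∀ i, KX (C i)), f' (ι _ (q.map (mk U))) =
        mk U fun i => (q.map (Pi.evalRingHom (fun i => KX (C i)) i)).eval₂ (τ i) (tX (C i))) →
    (∀ (Dk : Der (KX (UP U fun i => KX (C i)))),
      IsDer Dk → ∀ z, f' (Dk z) = der U D (f' z)) →
    ∀ (Y : ∀ i, Matrix (Fin g) (Fin (2 * g)) (KX (C i))),
    (∀ i j l, D i ((Y i * Em (aX (a i))) j l) =
      ((Y i * Em (aX (a i))) * Bm (tX (C i)) (aX (a i))) j l) →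
    (∀ i, ((Y i).submatrix id lo).det ≠ 0) →
    ∀ G : MvPolynomial (Up g) (KX (UP U fun i => KX (C i))),
      MvPolynomial.eval₂ f' (fun s : Up g => mk U fun i =>
        Sm (Qx (tX (C i)) (aX (a i))) (Y i) s.1.1 s.1.2) G = 0 → G = 0

/-- N7. The elements `1, X, …, X ^ (p - 1)` are linearly independent over the functions of
`X ^ p`. -/
def S_Tau : Prop :=
  ∀ (C : Type) [Field C] (p : ℕ) [Fact p.Prime] [CharP C p], ∃ τ : KX C →+* KX C,
    (∀ q, τ (ι C q) = ι C (expand C p q)) ∧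
    (∀ q : (KX C)[X], q.natDegree < p → q.eval₂ τ (tX C) = 0 → q = 0) ∧
    ∀ D : Der (KX C), IsDer D → ∀ z, D (τ z) = 0

end Pool.Agent.Helper62.BM
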