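import Pool.Agent.Helper62.BM.Stm4

/-!
# The families `y ^ 2 = f(x) - t`: statements

`f` has degree `n = 2 g + 1`, `f' = lam ∏ (x - c_j)`, and the critical values `v_j = f(c_j)` are distinct. In
the basis `b_j = ∏_(m ≠ j) (x - c_m)` (forms `b_j dx / y`) the Gauss-Manin connection is
`∇ = D + Q diag (κ_j / (t - v_j))` with the CONSTANT symplectic bivector `Q = Qc f c` and constants `κ_j`:
`B = Bq Q κ v t`. Row vectors are functionals; a functional `y` is horizontal if `D y = y B`.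
-/

set_option autoImplicit false

open Polynomial Matrix Finset Filter NumberField IsDedekindDomain

namespace Pool.Agent.Helper62.BM

section defs

/-- The connection matrix `Q diag (κ_j / (x - v_j))`. -/
def Bq {F : Type} [Field F] {n : ℕ} (Q : Matrix (Fin n) (Fin n) F) (κ v : Fin n → F) (x : F) :
    Matrix (Fin n) (Fin n) F :=
  Matrix.of fun i j => Q i j * κ j * (x - v j)⁻¹

/-- The sum of the residues `Q diag κ`. -/
def Rq {F : Type} [Field F] {n : ℕ} (Q : Matrix (Fin n) (Fin n) F) (κ : Fin n → F) :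
    Matrix (Fin n) (Fin n) F :=
  Matrix.of fun i j => Q i j * κ j

/-- `- m` is not an eigenvalue at infinity. -/
def E1 {F : Type} [Field F] {n : ℕ} (Q : Matrix (Fin n) (Fin n) F) (κ : Fin n → F) (m : ℕ) : Prop :=
  ∀ y : Fin n → F, (m : F) • y + Rq Q κ *ᵥ y = 0 → y = 0

/-- `- m` is not a difference of eigenvalues at infinity. -/
def E2 {F : Type} [Field F] {n : ℕ} (Q : Matrix (Fin n) (Fin n) F) (κ : Fin n → F) (m : ℕ) : Prop :=
  ∀ Y : Matrix (Fin n) (Fin n) F, (m : F) • Y + Rq Q κ * Y - Y * Rq Q κ = 0 → Y = 0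

/-- The data are nondegenerate. -/
def Ok {F : Type} [Field F] {n : ℕ} (Q : Matrix (Fin n) (Fin n) F) (κ v : Fin n → F) : Prop :=
  Qᵀ = -Q ∧ Q.det ≠ 0 ∧ (∀ a b, a ≠ b → Q a b ≠ 0) ∧ (∀ j, κ j ≠ 0) ∧ Function.Injective v

/-- The constants in the field of rational functions. -/
noncomputable abbrev cst (C : Type) [Field C] : C →+* KX C := (ι C).comp Polynomial.C

/-- The connection matrix over the field of rational functions. -/
noncomputable def BqX {C : Type} [Field C] {n : ℕ} (Q : Matrix (Fin n) (Fin n) C)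
    (κ v : Fin n → C) : Matrix (Fin n) (Fin n) (KX C) :=
  Bq (Q.map (cst C)) (fun j => cst C (κ j)) (fun j => cst C (v j)) (tX C)

/-- `w = ∏ (X - v_j)`. -/
noncomputable def wv {C : Type} [Field C] {n : ℕ} (v : Fin n → C) : C[X] :=
  ∏ j, (X - Polynomial.C (v j))

/-- `w B`. -/
noncomputable def Mq {C : Type} [Field C] {n : ℕ} (Q : Matrix (Fin n) (Fin n) C)
    (κ v : Fin n → C) : Matrix (Fin n) (Fin n) C[X] :=
  Matrix.of fun i j => Polynomial.C (Q i j * κ j) * ∏ m ∈ univ.erase j, (X - Polynomial.C (v m))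

/-- The operator `w ∇` on matrices of polynomials. -/
noncomputable def wD {C : Type} [Field C] {n : ℕ} (Q : Matrix (Fin n) (Fin n) C)
    (κ v : Fin n → C) (θ : Matrix (Fin n) (Fin n) C[X]) : Matrix (Fin n) (Fin n) C[X] :=
  wv v • θ.map (fun q => derivative q) + Mq Q κ v * θ - θ * Mq Q κ v

/-- The Taylor expansion at `c`. -/
noncomputable def tay {C : Type} [Field C] (c : C) : C[X] →+* PowerSeries C :=
  Polynomial.eval₂RingHom (PowerSeries.C (R := C)) (PowerSeries.X + PowerSeries.C c)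

/-- `x` is a horizontal vector of power series at `c`: `w ∇ x = 0`. -/
def IsHor {C : Type} [Field C] {n : ℕ} (Q : Matrix (Fin n) (Fin n) C) (κ v : Fin n → C) (c : C)
    (x : Fin n → PowerSeries C) : Prop :=
  ∀ a, tay c (wv v) * PowerSeries.derivative C (x a) + ∑ b, tay c (Mq Q κ v a b) * x b = 0

/-- The row `ξ = Q⁻¹ x`. -/
noncomputable def xi {C : Type} [Field C] {n : ℕ} (Q : Matrix (Fin n) (Fin n) C)
    (x : Fin n → PowerSeries C) : Fin n → PowerSeries C :=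
  (Q⁻¹).map (PowerSeries.C (R := C)) *ᵥ x

/-- The functionals `Λ_i : x ^ l ↦ [x ^ (p (i + 1) - 1)] (x ^ l h ^ ((p - 1) / 2))`. -/
noncomputable def Yh {R : Type} [CommRing R] (p g n : ℕ) (h : R[X]) : Matrix (Fin g) (Fin n) R :=
  Matrix.of fun i l => (X ^ (l : ℕ) * h ^ ((p - 1) / 2)).coeff (p * ((i : ℕ) + 1) - 1)

/-- `f(x) - t`, the outer variable is `x`. -/
noncomputable def ft {C : Type} [CommRing C] (f : C[X]) : C[X][X] :=
  f.map Polynomial.C - Polynomial.C X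

/-- The bivector in the basis `x ^ l`. -/
noncomputable def Qf {F : Type} [Field F] (n : ℕ) (f : F[X]) : Matrix (Fin n) (Fin n) F :=
  Matrix.of fun l m => (((l : ℕ) : F) - ((m : ℕ) : F)) / 2 * f.coeff ((l : ℕ) + m + 2)

/-- The bivector in the basis `b_j`. -/
noncomputable def Qc {F : Type} [Field F] {n : ℕ} (f : F[X]) (c : Fin n → F) :
    Matrix (Fin n) (Fin n) F :=
  Matrix.of fun i j => if i = j then 0 else
    wt c i * wt c j * (f.eval (c j) - f.eval (c i)) / (c i - c j) ^ 2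

/-- `κ_j = ∏_(m ≠ j) (c_j - c_m) / lam`. -/
def kc {F : Type} [Field F] {n : ℕ} (lam : F) (c : Fin n → F) (j : Fin n) : F :=
  lam⁻¹ * ∏ m ∈ univ.erase j, (c j - c m)

/-- `f` has degree `2 g + 1`, the critical points `c_j` and distinct critical values. -/
def Crit {F : Type} [CommRing F] (g : ℕ) (f : F[X]) (lam : F) (c : Fin (2 * g) → F) : Prop :=
  f.natDegree = 2 * g + 1 ∧ derivative f = Polynomial.C lam * ∏ j, (X - Polynomial.C (c j)) ∧
    Function.Injective c ∧ Function.Injective fun j => f.eval (c j)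

end defs

/-! ## L1. Characteristic `p`: the polar part of the `p`-curvature -/

/-- L1. Proof. As `S_Res`: with `s = X - c`, `δ = s ∇`, `s ^ p ∇ ^ p = δ ^ p - δ`; for a vector `u` of
polynomials `((X - c) w) ^ p ∇ ^ p u` is a vector of polynomials with the value
`w(c) ^ p (N ^ p - N) u(c) = - w(c) ^ p N u(c)`, `N = M(c) / w(c)`. Multiply
`tr (θ pcv) = 0` by `((X - c) w) ^ p` and evaluate at `c`. -/
def L_Res : Prop :=
  ∀ (C : Type) [Field C] (p : ℕ) [Fact p.Prime] [CharP C p] (D : Der (KX C)),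
    IsDer D → ∀ (n : ℕ) (B : Matrix (Fin n) (Fin n) (KX C))
    (M : Matrix (Fin n) (Fin n) C[X]) (w : C[X]) (c : C), w.eval c ≠ 0 →
    (∀ i j, ι C ((X - Polynomial.C c) * w) * B i j = ι C (M i j)) →
    M.map (Polynomial.eval c) * M.map (Polynomial.eval c) = 0 →
    ∀ θ : Matrix (Fin n) (Fin n) C[X], (θ.map (ι C) * pcv D B p).trace = 0 →
      (θ.map (Polynomial.eval c) * M.map (Polynomial.eval c)).trace = 0

/-! ## L2-L6. Characteristic zero -/

/-- L2. Power series solutions. Proof: `s = X - c`, `s w (s + c) x' + M(s + c) x = 0`; the coefficient of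
`s ^ i` gives `(i + N) x_i = -` (terms in `x_0, …, x_(i-1)`), `N = M(c) / w(c)`, `N ^ 2 = 0`, so
`(i + N)⁻¹ = i⁻¹ (1 - N / i)`. -/
def L_PS : Prop :=
  ∀ (k : Type) [Field k] [CharZero k] (n : ℕ) (M : Matrix (Fin n) (Fin n) k[X]) (w : k[X]) (c : k),
    w.eval c ≠ 0 → M.map (Polynomial.eval c) * M.map (Polynomial.eval c) = 0 → ∀ r : Fin n → k,
    M.map (Polynomial.eval c) *ᵥ r = 0 → ∃ x : Fin n → PowerSeries k,
      (∀ a, PowerSeries.constantCoeff (x a) = r a) ∧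
      ∀ a, tay c ((X - Polynomial.C c) * w) * PowerSeries.derivative k (x a) +
        ∑ b, tay c (M a b) * x b = 0

/-- L3. Horizontal matrices are constant scalars. Proof. (1) The matrix `Y` has no poles: let `u` be a
polynomial `≠ 0` of minimal degree such that `P = u Y` is a matrix of polynomials; then
`u w P' = w u' P - u [M, P]`, `w = wv v`, `M = Mq`. If `π` is a prime factor of `u`: if `π` does not
divide `w`, then `π ∣ P` (compare the orders, `char k = 0`), contradiction. If `π = X - v_j`,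
`u = π ^ a u₁`, then dividing by `π ^ a` and evaluating at `v_j` gives `a P(v_j) = [N_j, P(v_j)]` with
`N_j = κ_j Q e_j e_jᵀ`, `N_j ^ 2 = 0`, so `ad N_j` is nilpotent and `P(v_j) = 0`, contradiction. (2) `Y` is
a matrix of polynomials of degree `m`; the leading matrix satisfies `m Y_m + R Y_m - Y_m R = 0`, so
`m = 0` by `E2`. (3) `Y` is constant and commutes with all `N_j`, so `Y e_j e_jᵀ`-wise: `Y` is diagonal
and `Y Q e_j = y_j Q e_j`, all `y_j` are equal because `Q a j ≠ 0`. -/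
def L_HS : Prop :=
  ∀ (k : Type) [Field k] [CharZero k] (n : ℕ) (Q : Matrix (Fin n) (Fin n) k) (κ v : Fin n → k),
    Ok Q κ v → (∀ m, 1 ≤ m → E2 Q κ m) → ∀ D : Der (KX k), IsDer D →
    ∀ Y : Matrix (Fin n) (Fin n) (KX k),
    Y.map D + BqX Q κ v * Y - Y * BqX Q κ v = 0 → ∃ c : k, Y = Matrix.diagonal fun _ => cst k c

/-- L4. The functional `ξ` has no zeros. Proof in the sheet. -/
def L_LI : Prop :=
  ∀ (k : Type) [Field k] [CharZero k] (n : ℕ) (Q : Matrix (Fin n) (Fin n) k) (κ v : Fin n → k),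
    Ok Q κ v → (∀ m, E1 Q κ m) → (∀ m, 1 ≤ m → E2 Q κ m) → ∀ (j : Fin n)
    (x : Fin n → PowerSeries k), IsHor Q κ v (v j) x →
    (∀ a, PowerSeries.constantCoeff (x a) = Q a j) → ∀ z : Fin n → k[X],
    ∑ a, tay (v j) (z a) * xi Q x a = 0 → z = 0

/-- L5. The commutant of `X_j = x ξᵀ`. Proof in the sheet. -/
def L_Comm : Prop :=
  ∀ (k : Type) [Field k] [CharZero k] (n : ℕ) (Q : Matrix (Fin n) (Fin n) k) (κ v : Fin n → k),
    Ok Q κ v → (∀ m, E1 Q κ m) → (∀ m, 1 ≤ m → E2 Q κ m) → ∀ (j : Fin n)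
    (x : Fin n → PowerSeries k), IsHor Q κ v (v j) x →
    (∀ a, PowerSeries.constantCoeff (x a) = Q a j) → ∀ θ : Matrix (Fin n) (Fin n) k[X],
    θ.map (tay (v j)) * Matrix.vecMulVec x (xi Q x) =
      Matrix.vecMulVec x (xi Q x) * θ.map (tay (v j)) →
    ∃ q : k[X], θ = Matrix.diagonal fun _ => q

/-- L6. Proof in the sheet: if all `tr (θ(v_j) N_j)`, `θ ∈ Θ`, are zero, so are all
`tr (θ X_j)`. -/
def L_Van : Prop :=
  ∀ (k : Type) [Field k] [CharZero k] (n : ℕ) (Q : Matrix (Fin n) (Fin n) k) (κ v : Fin n → k),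
    Ok Q κ v → ∀ (j : Fin n) (x : Fin n → PowerSeries k), IsHor Q κ v (v j) x →
    (∀ a, PowerSeries.constantCoeff (x a) = Q a j) →
    ∀ Θ : Submodule k[X] (Matrix (Fin n) (Fin n) k[X]), (∀ θ ∈ Θ, wD Q κ v θ ∈ Θ) →
    (∀ θ : Matrix (Fin n) (Fin n) k[X], (X - Polynomial.C (v j)) • θ ∈ Θ → θ ∈ Θ) →
    (∀ θ ∈ Θ, (θ.map (Polynomial.eval (v j)) * Q) j j = 0) → ∀ θ ∈ Θ,
      xi Q x ⬝ᵥ (θ.map (tay (v j)) *ᵥ x) = 0

/-! ## L7-L9. The ultraproducts -/

/-- L7. As `S_Con` (but the `p`-curvature need not have rank one). The data are `Q`, `κ`, `v` and a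
constant change of basis `P`. Proof in the sheet, from `L_Res`, `L_PS`, `L_LI`, `L_Comm`, `L_Van`,
`S_DPM`, `S_Lie` (with the field of fractions of `k[[s]]` for `L`). -/
def L_Con : Prop :=
  ∀ (g : ℕ), 1 ≤ g → ∀ (U : Ultrafilter ℕ) (C : ℕ → Type) [∀ i, Field (C i)] (p : ℕ → ℕ)
    [∀ i, Fact (p i).Prime] [∀ i, CharP (C i) (p i)],
    (∀ N : ℕ, ∀ᶠ i in (U : Filter ℕ), N < p i) →
    ∀ (Q P : ∀ i, Matrix (Fin (2 * g)) (Fin (2 * g)) (C i)) (κ v : ∀ i, Fin (2 * g) → C i),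
    (∀ i, Ok (Q i) (κ i) (v i)) → (∀ i, (P i).det ≠ 0) →
    (∀ m : ℕ, ∀ᶠ i in (U : Filter ℕ), E1 (Q i) (κ i) m) →
    (∀ m : ℕ, 1 ≤ m → ∀ᶠ i in (U : Filter ℕ), E2 (Q i) (κ i) m) → ∀ (Df : ∀ i, Der (KX (C i))),
    (∀ i, IsDer (Df i)) → ∀ (f : KX (UP U C) →+* UP U fun i => KX (C i)),
    (∀ q : Polynomial (∀ i, C i), f (ι _ (q.map (mk U))) =
        mk U fun i => ι (C i) (q.map (Pi.evalRingHom C i))) →
    (∀ (Dk : Der (KX (UP U C))), IsDer Dk → ∀ z, f (Dk z) = der U Df (f z)) →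
    ∀ A : Matrix (Fin (2 * g)) (Fin (2 * g)) (KX (UP U C)),
      A * (mkM U fun i => P i * Q i * (P i)ᵀ).map (cst (UP U C)) +
        (mkM U fun i => P i * Q i * (P i)ᵀ).map (cst (UP U C)) * Aᵀ = 0 →
      ∀ θ : Matrix (Fin (2 * g)) (Fin (2 * g)) (KX (UP U C)),
      (θ.map f * mkM U (fun i => pcv (Df i) ((P i).map (cst (C i)) * BqX (Q i) (κ i) (v i) *
        ((P i).map (cst (C i)))⁻¹) (p i))).trace = 0 →
      (θ * A).trace = 0

/-- L8. The determinant `det Y₁` of an isotropic matrix of rank `g` whose relations are stable under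
the Lie algebra of `Q` is not zero. Proof in the sheet. -/
def L_Lagr : Prop :=
  ∀ (k L : Type) [Field k] [CharZero k] [Field L] [Algebra k L] (g : ℕ)
    (Q : Matrix (Fin (2 * g)) (Fin (2 * g)) k) (Y : Matrix (Fin g) (Fin (2 * g)) L),
    Qᵀ = -Q → Q.submatrix hi hi = 0 → (Q.submatrix lo hi).det ≠ 0 →
    (∀ c : Fin g → L, c ᵥ* Y = 0 → c = 0) → Y * Q.map (algebraMap k L) * Yᵀ = 0 →
    (∀ A : Matrix (Fin (2 * g)) (Fin (2 * g)) k, A * Q + Q * Aᵀ = 0 →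
      ∀ G : MvPolynomial (Fin g × Fin (2 * g)) k,
        MvPolynomial.aeval (fun s : Fin g × Fin (2 * g) => Y s.1 s.2) G = 0 →
        ∑ s : Fin g × Fin (2 * g), (Y * A.map (algebraMap k L)) s.1 s.2 *
          MvPolynomial.aeval (fun s : Fin g × Fin (2 * g) => Y s.1 s.2)
            (MvPolynomial.pderiv s G) = 0) →
    (Y.submatrix id lo).det ≠ 0

/-- The nondegeneracy of the data `Q, P, κ, v` and the shape of `P Q Pᵀ`. -/
def OkP {F : Type} [Field F] {g : ℕ} (Q P : Matrix (Fin (2 * g)) (Fin (2 * g)) F)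
    (κ v : Fin (2 * g) → F) : Prop :=
  Ok Q κ v ∧ P.det ≠ 0 ∧ (P * Q * Pᵀ).submatrix hi hi = 0 ∧
    ((P * Q * Pᵀ).submatrix lo hi).det ≠ 0

/-- L9. As `S_Ind2`, with `L_Con`, `L_Lagr` and `S_Chart2`. -/
def L_Ind : Prop :=
  ∀ (g : ℕ), 1 ≤ g → ∀ (U : Ultrafilter ℕ) (C : ℕ → Type) [∀ i, Field (C i)] (p : ℕ → ℕ)
    [∀ i, Fact (p i).Prime] [∀ i, CharP (C i) (p i)],
    (∀ N : ℕ, ∀ᶠ i in (U : Filter ℕ), N < p i) →
    ∀ (Q P : ∀ i, Matrix (Fin (2 * g)) (Fin (2 * g)) (C i)) (κ v : ∀ i, Fin (2 * g) → C i),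
    (∀ i, OkP (Q i) (P i) (κ i) (v i)) →
    (∀ m : ℕ, ∀ᶠ i in (U : Filter ℕ), E1 (Q i) (κ i) m) →
    (∀ m : ℕ, 1 ≤ m → ∀ᶠ i in (U : Filter ℕ), E2 (Q i) (κ i) m) → ∀ (D : ∀ i, Der (KX (C i))),
    (∀ i, IsDer (D i)) → ∀ (τ : ∀ i, KX (C i) →+* KX (C i)),
    (∀ i q, τ i (ι (C i) q) = ι (C i) (expand (C i) (p i) q)) →
    ∀ (f' : KX (UP U fun i => KX (C i)) →+* UP U fun i => KX (C i)),
    (∀ q : Polynomial (∀ i, KX (C i)), f' (ι _ (q.map (mk U))) =
        mk U fun i => (q.map (Pi.evalRingHom (fun i => KX (C i)) i)).eval₂ (τ i) (tX (C i))) →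
    (∀ (Dk : Der (KX (UP U fun i => KX (C i)))),
      IsDer Dk → ∀ z, f' (Dk z) = der U D (f' z)) →
    ∀ (Y : ∀ i, Matrix (Fin g) (Fin (2 * g)) (KX (C i))),
    (∀ i j l, D i ((Y i * (P i).map (cst (C i))) j l) =
      ((Y i * (P i).map (cst (C i))) * BqX (Q i) (κ i) (v i)) j l) →
    (∀ i, ∀ c : Fin g → KX (C i), c ᵥ* Y i = 0 → c = 0) →
    (∀ i, Y i * (P i * Q i * (P i)ᵀ).map (cst (C i)) * (Y i)ᵀ = 0) →
    (∀ᶠ i in (U : Filter ℕ), ((Y i).submatrix id lo).det ≠ 0) ∧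
    ∀ G : MvPolynomial (Vars g) (KX (UP U fun i => KX (C i))),
      MvPolynomial.eval₂ f' (fun s : Vars g => mk U fun i =>
        frv ((P i * Q i * (P i)ᵀ).map (cst (C i))) (Y i) s) G = 0 → G = 0

/-! ## L10-L11. Nonvanishing and few zeros -/

/-- L10. The nonvanishing (`nv_core`, `S_NV2`), for a class of data: `E1` and `E2` for large `p`. -/
def L_NV : Prop :=
  ∀ (g : ℕ), 1 ≤ g → ∀ (E : ℕ → ℕ) (e A₀ β : ℕ), ∃ p₀ : ℕ, ∀ (p : ℕ) [Fact p.Prime] (C : Type)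
    [Field C] [CharP C p], p₀ ≤ p → ∀ (Q P : Matrix (Fin (2 * g)) (Fin (2 * g)) C)
    (κ v : Fin (2 * g) → C), OkP Q P κ v → (∀ m, E m < p → E1 Q κ m) →
    (∀ m, 1 ≤ m → E m < p → E2 Q κ m) →
    ∀ (D : Der (KX C)), IsDer D → ∀ (Y : Matrix (Fin g) (Fin (2 * g)) (KX C)),
    (∀ j l, D ((Y * P.map (cst C)) j l) = ((Y * P.map (cst C)) * BqX Q κ v) j l) →
    (∀ c : Fin g → KX C, c ᵥ* Y = 0 → c = 0) →
    Y * (P * Q * Pᵀ).map (cst C) * Yᵀ = 0 →
    (Y.submatrix id lo).det ≠ 0 ∧ NVp C p (frv ((P * Q * Pᵀ).map (cst C)) Y) e A₀ β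

/-- L11. As `S_FewG`, with `P = Em c`, `Q = Qc f c`, `κ = kc lam c`, `P Q Pᵀ = Qf (2 g) f`. -/
def L_FewG : Prop :=
  ∀ (g : ℕ), 1 ≤ g → ∀ (A : Type) [CommRing A] [IsDomain A] [CharZero A] (f : A[X]) (lam : A)
    (c : Fin (2 * g) → A), Crit g f lam c →
    ∀ G : MvPolynomial (Fin g × Fin g) A[X], G ≠ 0 →
    ∀ ε : ℝ, 0 < ε → ∃ (p₀ : ℕ) (a₀ : A), a₀ ≠ 0 ∧
      ∀ (p : ℕ) [Fact p.Prime] (k : Type) [Field k] [CharP k p] (φ : A →+* k), p₀ ≤ p →
      φ a₀ ≠ 0 → ∀ T : Finset k, (∀ t ∈ T, t ^ p = t ∧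
        MvPolynomial.eval₂ ((evalRingHom t).comp (mapRingHom φ)) (fun s : Fin g × Fin g =>
          (Yh p g (2 * g) (ft (f.map φ)) s.1 (lo s.2)).eval t) G = 0) → (T.card : ℝ) ≤ ε * p

/-! ## L12-L18. The family -/

/-- L12. Change of basis. Both sides are the coefficients of
`(f(z) - f(x) + (x - z) (f'(x) + f'(z)) / 2) / (x - z) ^ 2 = ∑ (l - m) / 2 f_(l + m + 2) x ^ l z ^ m`, a polynomial
of degree `< 2 g` in `x` and in `z` with the values `(v_j - v_i) / (c_i - c_j) ^ 2` at `(c_i, c_j)`, `i ≠ j`, and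
`0` at `(c_i, c_i)` (as `S_EQ`). -/
def L_EQ : Prop :=
  ∀ (F : Type) [Field F], (2 : F) ≠ 0 → ∀ (g : ℕ) (f : F[X]) (lam : F) (c : Fin (2 * g) → F),
    Crit g f lam c → lam ≠ 0 → Em c * Qc f c * (Em c)ᵀ = Qf (2 * g) f

/-- L13. As `S_QxDet`. -/
def L_QfDet : Prop :=
  ∀ (F : Type) [Field F] (g : ℕ), (∀ m : ℕ, 1 ≤ m → m ≤ 2 * g → (m : F) ≠ 0) → ∀ f : F[X],
    f.natDegree = 2 * g + 1 → 1 ≤ g → (Qf (2 * g) f).det ≠ 0 ∧
      ((Qf (2 * g) f).submatrix lo hi).det ≠ 0 ∧ ((Qf (2 * g) f).submatrix hi hi) = 0 ∧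
      (Qf (2 * g) f)ᵀ = -Qf (2 * g) f

/-- L14. The eigenvalues at infinity are `(l + 1) / n - 1 / 2`, `0 ≤ l < 2 g`, `n = 2 g + 1`. Proof in the
sheet. -/
def L_E : Prop :=
  ∀ (F : Type) [Field F] (p : ℕ) [Fact p.Prime] [CharP F p] (g : ℕ) (f : F[X]) (lam : F)
    (c : Fin (2 * g) → F), Crit g f lam c → lam ≠ 0 → ∀ m : ℕ,
    2 * (2 * g + 1) * (m + 1) < p → E1 (Qc f c) (kc lam c) m ∧ (1 ≤ m → E2 (Qc f c) (kc lam c) m)

/-- L15. Horizontality. Proof. `Λ` kills derivatives. `∂_t (b_j h ^ q) = - q b_j h ^ (q - 1) = b_j h ^ (q - 1) / 2`,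
`q = (p - 1) / 2`, `h = f - t`. With `β = (f - v_j) / (lam (x - c_j))` one has `β f' = (f - v_j) b_j`, so
`(v_j - t) Λ (b_j h ^ (q - 1)) = Λ (b_j h ^ q) - Λ (β f' h ^ (q - 1)) = Λ ((b_j - 2 β') h ^ q)`, and
`(b_j - 2 β') / 2 = - ∑_i Qc_(i, j) kc_j b_i` (compare the values at the `c_i`). -/
def L_HWb : Prop :=
  ∀ (C : Type) [Field C] (p : ℕ) [Fact p.Prime] [CharP C p] (g : ℕ) (f : C[X]) (lam : C)
    (c : Fin (2 * g) → C), 2 * g + 1 < p → Crit g f lam c → lam ≠ 0 → ∀ (i : Fin g) (j : Fin (2 * g)),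
    (X - Polynomial.C (f.eval (c j))) *
      derivative ((Yh p g (2 * g) (ft f) * (Em c).map Polynomial.C) i j) =
      ∑ a, (Yh p g (2 * g) (ft f) * (Em c).map Polynomial.C) i a *
        Polynomial.C (Qc f c a j * kc lam c j)

/-- L16. The degrees. -/
def L_HWdeg : Prop :=
  ∀ (C : Type) [Field C] (p g n : ℕ) (f : C[X]) (i : Fin g) (l : Fin n),
    (Yh p g n (ft f) i l).natDegree ≤ (p - 1) / 2

/-- L17. Isotropy (as `S_HWiso`, for every polynomial `h`). -/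
def L_HWiso : Prop :=
  ∀ (R : Type) [CommRing R] (p : ℕ) [Fact p.Prime] [CharP R p], p ≠ 2 → ∀ (g : ℕ) (h : R[X]),
    h.natDegree ≤ 2 * g + 1 → ∀ (i i' : Fin g),
    ∑ l : Fin (2 * g), ∑ m : Fin (2 * g), Yh p g (2 * g) h i l *
      ((((l : ℕ) : R) - ((m : ℕ) : R)) * h.coeff ((l : ℕ) + m + 2)) *
      Yh p g (2 * g) h i' m = 0

/-- L18. The functionals are linearly independent. Proof in the sheet (as `K_HWrank`, for every
squarefree polynomial `h` of degree `2 g + 1`). -/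
def L_HWrank : Prop :=
  ∀ (F : Type) [Field F] (p : ℕ) [Fact p.Prime] [CharP F p] (g : ℕ) (h : F[X]),
    2 * g + 1 < p → h.natDegree = 2 * g + 1 → h.Separable → ∀ c : Fin g → F,
    c ᵥ* Yh p g (2 * g) h = 0 → c = 0

/-! ## L19. The places of a number field -/

/-- The member `f(x) - φ(t)` of the family. -/
noncomputable def membf {K : Type} [Field K] [NumberField K] (f φ : (𝓞 K)[X]) (t : ℕ) :
    (𝓞 K)[X] :=
  f - C (φ.eval (t : 𝓞 K))

open Classical in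
/-- L19. As `S_FewK`, `A = 𝓞 K [c_1, …, c_(2 g)]`, the `c_j` the zeros of `f'`; `Yh` is the Hasse-Witt
matrix of `f - s` (no leading coefficient has to be removed). The bad `s` are the critical values and
the zeros of `det · G`. -/
def L_FewK : Prop :=
  ∀ (K : Type) [Field K] [NumberField K] (g : ℕ), 1 ≤ g → ∀ (f φ : (𝓞 K)[X]),
    f.natDegree = 2 * g + 1 → ((derivative f).map (algebraMap (𝓞 K) K)).Separable →
    (∀ a b : AlgebraicClosure K, aeval a (derivative f) = 0 → aeval b (derivative f) = 0 →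
      aeval a f = aeval b f → a = b) → 1 ≤ φ.natDegree →
    ∀ G : MvPolynomial (Fin g × Fin g) (𝓞 K)[X], G ≠ 0 → ∀ ε : ℝ, 0 < ε →
    {v : HeightOneSpectrum (𝓞 K) | (Ideal.absNorm v.asIdeal).Prime ∧
      ε * Ideal.absNorm v.asIdeal < (((range (Ideal.absNorm v.asIdeal)).filter
        fun t : ℕ => ¬ (GoodOrd g (2 * g + 1) (membf f φ t) v ∧
          Avoids g G (φ.eval (t : 𝓞 K)) (membf f φ t) v)).card : ℝ)}.Finite

end Pool.Agent.Helper62.BM
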