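import Mathlib

/-!
# Big monodromy of the family `y² = (x - X) ∏ (x - a_j)`: definitions and statements

`V` has the basis `b_j = ∏_(m ≠ j) (x - a_m)` (differential forms `b_j dx / y`), the Gauss-Manin
connection is `∇ b_j = (∑_l b_l - b_j) / (2 (X - a_j))`. Column vectors are elements of `V`, row
vectors are functionals; a functional `y` is horizontal if `D y = y B`.
-/

set_option autoImplicit false

open Polynomial Matrix Finset

namespace Pool.Agent.Helper62.BM

section defs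

/-- The connection `∇ v = D v + B v` on column vectors. -/
def nab {F : Type} [Field F] {n : Type} [Fintype n] (D : F → F) (B : Matrix n n F) (v : n → F) :
    n → F :=
  fun i => D (v i) + (B *ᵥ v) i

/-- The matrix of `∇ ^ p`: the `j`-th column is `∇ ^ p` of the `j`-th basis vector. -/
def pcv {F : Type} [Field F] {n : Type} [Fintype n] [DecidableEq n] (D : F → F)
    (B : Matrix n n F) (p : ℕ) : Matrix n n F :=
  Matrix.of fun i j => ((nab D B)^[p] (Pi.single j 1)) i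

/-- The connection matrix in the basis `b_j`. -/
def Bm {F : Type} [Field F] {n : ℕ} (x : F) (a : Fin n → F) : Matrix (Fin n) (Fin n) F :=
  Matrix.of fun i j => if i = j then 0 else (2 * (x - a j))⁻¹

/-- `w_j = 1 / f'(a_j)`, `f = ∏ (x - a_m)`. -/
def wt {F : Type} [Field F] {n : ℕ} (a : Fin n → F) (j : Fin n) : F :=
  ∏ m ∈ univ.erase j, (a j - a m)⁻¹

/-- The horizontal alternating bivector in the basis `b_j`. -/
def Qb {F : Type} [Field F] {n : ℕ} (x : F) (a : Fin n → F) : Matrix (Fin n) (Fin n) F :=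
  Matrix.of fun i j => if i = j then 0 else
    ((a i - x) * wt a j + (a j - x) * wt a i) / (2 * (a i - a j))

/-- `b_j = ∏_(m ≠ j) (x - a_m)`. -/
noncomputable def bp {R : Type} [CommRing R] {n : ℕ} (a : Fin n → R) (j : Fin n) : R[X] :=
  ∏ m ∈ univ.erase j, (X - C (a m))

/-- The matrix of the coefficients of the `b_j`: `b_j = ∑_l E_(l, j) x ^ l`. -/
noncomputable def Em {R : Type} [CommRing R] {n : ℕ} (a : Fin n → R) :
    Matrix (Fin n) (Fin n) R :=
  Matrix.of fun l j => (bp a j).coeff l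

/-- `h = (x - t) ∏ (x - a_j)`. -/
noncomputable def hp {R : Type} [CommRing R] {n : ℕ} (t : R) (a : Fin n → R) : R[X] :=
  (X - C t) * ∏ j, (X - C (a j))

/-- The horizontal alternating bivector in the basis `x ^ l`, `l < n`. -/
noncomputable def Qx {F : Type} [Field F] {n : ℕ} (x : F) (a : Fin n → F) :
    Matrix (Fin n) (Fin n) F :=
  Matrix.of fun l m => (((l : ℕ) : F) - ((m : ℕ) : F)) / 2 * (hp x a).coeff ((l : ℕ) + m + 2)

/-- The field of rational functions. -/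
def KX (C : Type) [Field C] : Type := FractionRing C[X]

noncomputable instance (C : Type) [Field C] : Field (KX C) :=
  inferInstanceAs (Field (FractionRing C[X]))

noncomputable instance (C : Type) [Field C] : Algebra C[X] (KX C) :=
  inferInstanceAs (Algebra C[X] (FractionRing C[X]))

instance (C : Type) [Field C] : IsFractionRing C[X] (KX C) :=
  inferInstanceAs (IsFractionRing C[X] (FractionRing C[X]))

instance (C : Type) [Field C] (p : ℕ) [CharP C p] : CharP (KX C) p :=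
  charP_of_injective_algebraMap (IsFractionRing.injective C[X] (KX C)) p

instance (C : Type) [Field C] [CharZero C] : CharZero (KX C) :=
  charZero_of_injective_algebraMap (IsFractionRing.injective C[X] (KX C))

/-- The rational function given by a polynomial. -/
noncomputable abbrev ι (C : Type) [Field C] : C[X] →+* KX C := algebraMap C[X] (KX C)

/-- The parameter `X` in the field of rational functions. -/
noncomputable abbrev tX (C : Type) [Field C] : KX C := ι C X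

/-- The constants `a_j` in the field of rational functions. -/
noncomputable abbrev aX {C : Type} [Field C] {n : ℕ} (a : Fin n → C) : Fin n → KX C :=
  fun j => ι C (Polynomial.C (a j))

/-- The derivations of a field. -/
abbrev Der (F : Type) [Field F] : Type := Derivation ℤ F F

/-- `D` is the derivation `d / dX`. -/
def IsDer {C : Type} [Field C] (D : Der (KX C)) : Prop :=
  ∀ q : C[X], D (ι C q) = ι C (derivative q)

/-- The first half of the indices. -/
def lo {g : ℕ} (i : Fin g) : Fin (2 * g) := ⟨i, by omega⟩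

/-- The second half of the indices. -/
def hi {g : ℕ} (i : Fin g) : Fin (2 * g) := ⟨g + i, by omega⟩

/-- The pairs `i ≤ j`. -/
abbrev Up (g : ℕ) : Type := {s : Fin g × Fin g // s.1 ≤ s.2}

/-- The chart of the Lagrangian Grassmannian: `S = Y₁⁻¹ Y₂ Q₁₂ᵀ - Q₁₁ / 2`. -/
noncomputable def Sm {F : Type} [Field F] {g : ℕ} (Q : Matrix (Fin (2 * g)) (Fin (2 * g)) F)
    (Y : Matrix (Fin g) (Fin (2 * g)) F) : Matrix (Fin g) (Fin g) F :=
  (Y.submatrix id lo)⁻¹ * Y.submatrix id hi * (Q.submatrix lo hi)ᵀ -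
    (2⁻¹ : F) • Q.submatrix lo lo

/-- The evaluation of polynomials in `X` and `T` at `T = X ^ p`. -/
noncomputable def evT (C : Type) [Field C] (p : ℕ) : C[X][X] →+* KX C :=
  Polynomial.eval₂RingHom (ι C) (ι C (X ^ p))

/-- The elements `S` satisfy no polynomial relation of total degree `≤ e` with coefficients of
degree `< A₀` in `X` and degree `< β` in `T = X ^ p`. -/
def NVp {σ : Type} (C : Type) [Field C] (p : ℕ) (S : σ → KX C) (e A₀ β : ℕ) : Prop :=
  ∀ G : MvPolynomial σ C[X][X], G ≠ 0 → G.totalDegree ≤ e →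
    (∀ m, (G.coeff m).natDegree < β ∧ ∀ b, ((G.coeff m).coeff b).natDegree < A₀) →
    MvPolynomial.eval₂ (evT C p) S G ≠ 0

/-- The family `(x - X) ∏ (x - a_j)` over `C[X]` (the outer variable is `x`). -/
noncomputable def fmx {C : Type} [CommRing C] {n : ℕ} (a : Fin n → C) : C[X][X] :=
  (X - Polynomial.C X) * ∏ j, (X - Polynomial.C (Polynomial.C (a j)))

/-- The functionals `Λ_i : x ^ l ↦ [x ^ (p (i + 1) - 1)] (x ^ l h ^ ((p - 1) / 2))`, `l < n`. -/
noncomputable def YX {C : Type} [CommRing C] (p g : ℕ) {n : ℕ} (a : Fin n → C) :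
    Matrix (Fin g) (Fin n) C[X] :=
  Matrix.of fun i l => (X ^ (l : ℕ) * fmx a ^ ((p - 1) / 2)).coeff (p * ((i : ℕ) + 1) - 1)

end defs

/-! ## General facts on connections in characteristic `p` -/

/-- `∇ ^ p` is linear. Proof: `∇ (c v) = D c v + c ∇ v`, so
`∇ ^ p (c v) = ∑ choose p i (D ^ i c) ∇ ^ (p - i) v = c ∇ ^ p v`. -/
def S_Pcv : Prop :=
  ∀ (F : Type) [Field F] (p : ℕ) [Fact p.Prime] [CharP F p] (D : Derivation ℤ F F),
    (∀ c : F, (⇑D)^[p] c = 0) → ∀ (n : Type) [Fintype n] [DecidableEq n] (B : Matrix n n F)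
    (v : n → F), (nab D B)^[p] v = pcv D B p *ᵥ v

/-- The connection `M ↦ D M + B₁ M + M B₂ᵀ` on matrices has the `p`-th power
`M ↦ ψ₁ M + M ψ₂ᵀ`. Proof: for `M = u vᵀ` this is `∇ ^ p (u vᵀ) = ∑ choose p i ∇ ^ i u (∇ ^ (p - i) v)ᵀ`. -/
def S_PcvT : Prop :=
  ∀ (F : Type) [Field F] (p : ℕ) [Fact p.Prime] [CharP F p] (D : Derivation ℤ F F),
    (∀ c : F, (⇑D)^[p] c = 0) → ∀ (n m : Type) [Fintype n] [DecidableEq n] [Fintype m]
    [DecidableEq m] (B₁ : Matrix n n F) (B₂ : Matrix m m F) (M : Matrix n m F),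
    (fun M : Matrix n m F => Matrix.of fun i j => D (M i j) + (B₁ * M + M * B₂ᵀ) i j)^[p] M =
      pcv D B₁ p * M + M * (pcv D B₂ p)ᵀ

/-- The dual connection. Proof: `D (r ⬝ v) = (∇* r) ⬝ v + r ⬝ ∇ v`, apply `D ^ p`. -/
def S_PcvD : Prop :=
  ∀ (F : Type) [Field F] (p : ℕ) [Fact p.Prime] [CharP F p] (D : Derivation ℤ F F),
    (∀ c : F, (⇑D)^[p] c = 0) → ∀ (n : Type) [Fintype n] [DecidableEq n] (B : Matrix n n F),
    pcv D (-Bᵀ) p = -(pcv D B p)ᵀ

/-- The derivation `d / dX` of the field of rational functions. -/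
def S_Frac : Prop :=
  ∀ (C : Type) [Field C], ∃ D : Der (KX C), IsDer D ∧
    ∀ (p : ℕ) [Fact p.Prime] [CharP C p] (c : KX C), (⇑D)^[p] c = 0

/-- Residues. `∇ ^ p v = 0` and `B` has at most a simple pole at `c` with residue
`R = M(c) / w(c)`. Proof. Put `s = X - c`, `δ = s ∇`. Then `s ^ p ∇ ^ p = ∏_(i < p) (δ - i) = δ ^ p - δ`
(because `∏_(i < p) (T - i) = T ^ p - T` over `F_p`), so `δ ^ p v = δ v`. The operator `δ` preserves the
vectors of functions without pole at `c` and acts on their values at `c` as `R`. -/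
def S_Res : Prop :=
  ∀ (C : Type) [Field C] (p : ℕ) [Fact p.Prime] [CharP C p] (D : Der (KX C)),
    IsDer D → ∀ (N : Type) [Fintype N] [DecidableEq N] (B : Matrix N N (KX C))
    (M : Matrix N N C[X]) (w : C[X]) (c : C), w.eval c ≠ 0 →
    (∀ i j, ι C ((X - Polynomial.C c) * w) * B i j = ι C (M i j)) →
    ∀ v : N → C[X], (nab D B)^[p] (fun i => ι C (v i)) = 0 →
      (((w.eval c)⁻¹ • M.map (Polynomial.eval c)) ^ p) *ᵥ (fun i => (v i).eval c) =
        ((w.eval c)⁻¹ • M.map (Polynomial.eval c)) *ᵥ (fun i => (v i).eval c)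

/-! ## The family -/

/-- The `p`-curvature has rank at most one. -/
def S_Rank : Prop :=
  ∀ (F : Type) [Field F] (p : ℕ) [Fact p.Prime] [CharP F p] (D : Derivation ℤ F F),
    p ≠ 2 → (∀ c : F, (⇑D)^[p] c = 0) → ∀ (n : ℕ) (x : F) (a : Fin n → F), D x = 1 →
    (∀ j, D (a j) = 0) → Function.Injective a →
    ∃ z l : Fin n → F, pcv D (Bm x a) p = Matrix.vecMulVec z l

/-- The bivector is horizontal (any characteristic but two). -/
def S_QbHor : Prop :=
  ∀ (F : Type) [Field F] (D : Derivation ℤ F F), (2 : F) ≠ 0 → ∀ (n : ℕ) (x : F) (a : Fin n → F),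
    D x = 1 → (∀ j, D (a j) = 0) → Function.Injective a → ∀ i j,
    D (Qb x a i j) + (Bm x a * Qb x a + Qb x a * (Bm x a)ᵀ) i j = 0

/-- Change of basis. Both sides are the coefficients of the polynomial
`Q(x, z) = (h(z) - h(x) + (x - z) (h'(x) + h'(z)) / 2) / (x - z) ^ 2`. -/
def S_EQ : Prop :=
  ∀ (F : Type) [Field F], (2 : F) ≠ 0 → ∀ (n : ℕ) (x : F) (a : Fin n → F),
    Function.Injective a → Em a * Qb x a * (Em a)ᵀ = Qx x a

/-- `b_j` is a basis of the polynomials of degree `< n`. -/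
def S_EDet : Prop :=
  ∀ (F : Type) [Field F] (n : ℕ) (a : Fin n → F), Function.Injective a → (Em a).det ≠ 0

/-- `Qx` is triangular with respect to the antidiagonal `l + m = n - 1`, where its entries are
`(l - m) / 2`; the same holds for the upper right block. -/
def S_QxDet : Prop :=
  ∀ (F : Type) [Field F] (g : ℕ), (∀ m : ℕ, 1 ≤ m → m ≤ 2 * g → (m : F) ≠ 0) →
    ∀ (x : F) (a : Fin (2 * g) → F), 1 ≤ g → (Qx x a).det ≠ 0 ∧
      ((Qx x a).submatrix lo hi).det ≠ 0 ∧ ((Qx x a).submatrix hi hi) = 0 ∧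
      (Qx x a)ᵀ = -Qx x a

/-- Linear independence: no vector of polynomials of small degree is in the kernel of the
`p`-curvature. -/
def S_LI : Prop :=
  ∀ (C : Type) [Field C] (p : ℕ) [Fact p.Prime] [CharP C p] (D : Der (KX C)),
    IsDer D → ∀ (n : ℕ) (a : Fin n → C), Function.Injective a → 2 ≤ n →
    ∀ (m : ℕ) (v : Fin n → C[X]), (∀ i, (v i).natDegree ≤ m) → 2 * m + n + 2 < p →
    pcv D (Bm (tX C) (aX a)) p *ᵥ (fun i => ι C (v i)) = 0 → v = 0

/-- The `p`-curvature is not zero and only the scalar matrices of small degree commute with it. -/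
def S_Comm : Prop :=
  ∀ (C : Type) [Field C] (p : ℕ) [Fact p.Prime] [CharP C p] (D : Der (KX C)),
    IsDer D → ∀ (g : ℕ) (a : Fin (2 * g) → C), Function.Injective a → 1 ≤ g →
    ∀ (m : ℕ) (x : Matrix (Fin (2 * g)) (Fin (2 * g)) C[X]), (∀ i j, (x i j).natDegree ≤ m) →
    4 * m + 16 * g + 10 < p →
    x.map (ι C) * pcv D (Bm (tX C) (aX a)) p = pcv D (Bm (tX C) (aX a)) p * x.map (ι C) →
    ∃ c : C[X], x = Matrix.diagonal fun _ => c

/-! ## Linear algebra -/

/-- A Lie algebra which contains an element of rank one. -/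
def S_Lie : Prop :=
  ∀ (k L : Type) [Field k] [CharZero k] [Field L] [Algebra k L] (n : ℕ)
    (Q : Matrix (Fin n) (Fin n) k) (ψ : Matrix (Fin n) (Fin n) L), 2 ≤ n → Qᵀ = -Q → Q.det ≠ 0 →
    (∃ z l : Fin n → L, ψ = Matrix.vecMulVec z l) → ψ ≠ 0 →
    ψ * Q.map (algebraMap k L) + Q.map (algebraMap k L) * ψᵀ = 0 →
    (∀ v : Fin n → k, ψ *ᵥ (fun i => algebraMap k L (v i)) = 0 → v = 0) →
    (∀ x : Matrix (Fin n) (Fin n) k, x.map (algebraMap k L) * ψ = ψ * x.map (algebraMap k L) →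
      ∃ c : k, x = Matrix.diagonal fun _ => c) →
    (∀ θ : Matrix (Fin n) (Fin n) k, (θ.map (algebraMap k L) * ψ).trace = 0 →
      ψ * θ.map (algebraMap k L) - θ.map (algebraMap k L) * ψ ∈
        Submodule.span L {η : Matrix (Fin n) (Fin n) L | ∃ θ' : Matrix (Fin n) (Fin n) k,
          (θ'.map (algebraMap k L) * ψ).trace = 0 ∧ η = θ'.map (algebraMap k L)}) →
    ∀ A : Matrix (Fin n) (Fin n) k, A * Q + Q * Aᵀ = 0 → ∀ θ : Matrix (Fin n) (Fin n) k,
      (θ.map (algebraMap k L) * ψ).trace = 0 → (θ * A).trace = 0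

/-- The chart. If the relations over `k` of the matrix `Y` are stable under
`Y ↦ Y + ε Y A` for the `A` in the Lie algebra of `Q`, then the entries `i ≤ j` of the matrix
`S = Y₁⁻¹ Y₂ Q₁₂ᵀ - Q₁₁ / 2` are algebraically independent over `k`. Only the matrices
`A = (0, W; 0, 0)` with `W Q₁₂ᵀ` symmetric are used: they give `S ↦ S + ε W Q₁₂ᵀ`. -/
def S_Chart : Prop :=
  ∀ (k L : Type) [Field k] [CharZero k] [Field L] [Algebra k L] (g : ℕ)
    (Q : Matrix (Fin (2 * g)) (Fin (2 * g)) k) (Y : Matrix (Fin g) (Fin (2 * g)) L),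
    Qᵀ = -Q → Q.submatrix hi hi = 0 → (Q.submatrix lo hi).det ≠ 0 →
    (Y.submatrix id lo).det ≠ 0 →
    (∀ A : Matrix (Fin (2 * g)) (Fin (2 * g)) k, A * Q + Q * Aᵀ = 0 →
      ∀ G : MvPolynomial (Fin g × Fin (2 * g)) k,
        MvPolynomial.aeval (fun s : Fin g × Fin (2 * g) => Y s.1 s.2) G = 0 →
        ∑ s : Fin g × Fin (2 * g), (Y * A.map (algebraMap k L)) s.1 s.2 *
          MvPolynomial.aeval (fun s : Fin g × Fin (2 * g) => Y s.1 s.2)
            (MvPolynomial.pderiv s G) = 0) →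
    AlgebraicIndependent k fun s : Up g => Sm (Q.map (algebraMap k L)) Y s.1.1 s.1.2

/-! ## The nonvanishing -/

/-- The nonvanishing: for horizontal frames `Y` with `det Y₁ ≠ 0` the entries `i ≤ j` of `S` satisfy
no relation of bounded degree, if `p` is large. -/
def S_NV : Prop :=
  ∀ (g : ℕ), 1 ≤ g → ∀ (e A₀ β : ℕ), ∃ p₀ : ℕ, ∀ (p : ℕ) [Fact p.Prime] (C : Type) [Field C]
    [CharP C p], p₀ ≤ p → ∀ (a : Fin (2 * g) → C), Function.Injective a →
    ∀ (D : Der (KX C)), IsDer D → ∀ (Y : Matrix (Fin g) (Fin (2 * g)) (KX C)),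
    (∀ i j, D ((Y * Em (aX a)) i j) = ((Y * Em (aX a)) * Bm (tX C) (aX a)) i j) →
    (Y.submatrix id lo).det ≠ 0 →
    NVp C p (fun s : Up g => Sm (Qx (tX C) (aX a)) Y s.1.1 s.1.2) e A₀ β

/-! ## The Hasse-Witt functionals -/

/-- Horizontality, in the basis `b_j`. Proof. `∂_t (b_j h ^ q) = b_j h ^ q / (2 (x - t))` with
`q = (p - 1) / 2`, `b_j / (x - t) = (f / (x - t) - b_j) / (t - a_j)` and
`(f / (x - t)) h ^ q = f' h ^ q - 2 ∂_x (f h ^ q)`, `f' = ∑ b_m`. -/
def S_HWb : Prop :=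
  ∀ (C : Type) [Field C] (p : ℕ) [Fact p.Prime] [CharP C p], p ≠ 2 → ∀ (g n : ℕ) (a : Fin n → C)
    (i : Fin g) (j : Fin n),
    2 * (X - Polynomial.C (a j)) *
      derivative ((YX p g a * (Em a).map Polynomial.C) i j) =
      ∑ m ∈ univ.erase j, (YX p g a * (Em a).map Polynomial.C) i m

/-- The degrees (compare `DT_fm` in the library, `V11263/PCu/HWd.lean`). -/
def S_HWdeg : Prop :=
  ∀ (C : Type) [Field C] (p g n : ℕ) (a : Fin n → C) (i : Fin g) (l : Fin n),
    (YX p g a i l).natDegree ≤ (p - 1) / 2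

/-- Isotropy. Proof. With `Q(x, z) = (h(z) - h(x) + (x - z) (h'(x) + h'(z)) / 2) / (x - z) ^ 2
= ∑_(l, m) (l - m) / 2 h_(l + m + 2) x ^ l z ^ m` one has
`(x - z) ^ p Q(x, z) h(x) ^ q h(z) ^ q = ∂_z ((x - z) ^ (p - 1) h(z) ^ (q + 1) h(x) ^ q) -
∂_x (± (x - z) ^ (p - 1) h(x) ^ (q + 1) h(z) ^ q)`, and the coefficients of `x ^ (p i - 1) z ^ (p j - 1)` of
the right side vanish; `(x - z) ^ p = x ^ p - z ^ p`. -/
def S_HWiso : Prop :=
  ∀ (C : Type) [Field C] (p : ℕ) [Fact p.Prime] [CharP C p], p ≠ 2 → ∀ (g n : ℕ) (a : Fin n → C)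
    (i i' : Fin g), n ≤ 2 * g →
    ∑ l : Fin n, ∑ m : Fin n, YX p g a i l * ((((l : ℕ) : C[X]) - ((m : ℕ) : C[X])) *
      (fmx a).coeff ((l : ℕ) + m + 2)) * YX p g a i' m = 0

/-! ## The soft Stepanov method with the nonvanishing as a hypothesis -/

/-- The soft Stepanov theorem. `η l` are polynomials in `S` over `A[X]`; the polynomials
`Z l = P η l (S)` satisfy `q Z' = M Z`; they satisfy the nonvanishing. Then `Z 0` has few zeros in
`F_p`. Proof: adapt `Pool.Agent.Q95.ST.abs` and `Pool.Agent.Q299.ST.soft` (growth applied to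
`R = A[X]`, `S = MvPolynomial σ A[X]`, `y = η`). -/
def S_Step : Prop :=
  ∀ (A : Type) [CommRing A] [IsDomain A] [CharZero A] (σ : Type) [Fintype σ] [DecidableEq σ]
    (κ : ℕ) (η : Fin (κ + 1) → MvPolynomial σ A[X]), η 0 ≠ 0 → ∀ (q : A[X])
    (M : Matrix (Fin (κ + 1)) (Fin (κ + 1)) A[X]), q ≠ 0 → ∀ ε : ℝ, 0 < ε → ∀ Cd : ℕ,
    ∃ (e A₀ β p₀ : ℕ) (a₀ : A), a₀ ≠ 0 ∧ ∀ (p : ℕ) [Fact p.Prime] (k : Type) [Field k]
      [CharP k p] (φ : A →+* k), p₀ ≤ p → φ a₀ ≠ 0 → ∀ (Z : Fin (κ + 1) → k[X]) (P : KX k)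
      (S : σ → KX k), P ≠ 0 →
      (∀ l, ι k (Z l) = P * MvPolynomial.eval₂ ((ι k).comp (Polynomial.mapRingHom φ)) S (η l)) →
      (∀ l, q.map φ * derivative (Z l) = ∑ l', (M l' l).map φ * Z l') →
      (∀ l, (Z l).natDegree ≤ Cd * p) → NVp k p S e A₀ β → ∀ T : Finset k,
      (∀ t ∈ T, t ^ p = t ∧ (Z 0).eval t = 0) → (T.card : ℝ) ≤ ε * p

/-- The result over a domain. -/
def S_Few : Prop :=
  ∀ (g : ℕ), 1 ≤ g → ∀ (A : Type) [CommRing A] [IsDomain A] [CharZero A] (a : Fin (2 * g) → A),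
    Function.Injective a → ∀ ε : ℝ, 0 < ε → ∃ (p₀ : ℕ) (a₀ : A), a₀ ≠ 0 ∧
      ∀ (p : ℕ) [Fact p.Prime] (k : Type) [Field k] [CharP k p] (φ : A →+* k), p₀ ≤ p →
      φ a₀ ≠ 0 → ∀ T : Finset k, (∀ t ∈ T, t ^ p = t ∧
        (((YX p g fun j => φ (a j)).submatrix id lo).det).eval t = 0) → (T.card : ℝ) ≤ ε * p

end Pool.Agent.Helper62.BM
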