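import Pool.Agent.Helper62.BM.KStm
import Pool.Agent.Helper90.BM.Spread

/-!
# Cyclic covers: reduction modulo a place, roots of unity
-/

set_option autoImplicit false

open Polynomial Finset NumberField IsDedekindDomain

namespace Pool.Agent.Helper62.BM

open Pool.Agent.Helper90.BM (charP_res finite_mem card_res)

theorem kMod (K : Type) [Field K] [NumberField K] (n m : ℕ) (f φ : (𝓞 K)[X])
    (G : ∀ r, MvPolynomial (Fin (dK n m r) × Fin (dK n m r)) (𝓞 K)[X])
    (v : HeightOneSpectrum (𝓞 K)) (hv : (Ideal.absNorm v.asIdeal).Prime) (t : ℕ) :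
    GoodK n m f G (φ.eval (t : 𝓞 K)) v ↔
      GoodK n m f G (φ.eval ((t % Ideal.absNorm v.asIdeal : ℕ) : 𝓞 K)) v := by
  have := charP_res v hv
  have h1 : (t : v.asIdeal.ResidueField) =
      ((t % Ideal.absNorm v.asIdeal : ℕ) : v.asIdeal.ResidueField) :=
    (CharP.natCast_eq_natCast' _ (Ideal.absNorm v.asIdeal) (Nat.mod_modEq _ _)).symm
  have hs : algebraMap (𝓞 K) v.asIdeal.ResidueField (φ.eval (t : 𝓞 K)) =
      algebraMap (𝓞 K) v.asIdeal.ResidueField
        (φ.eval ((t % Ideal.absNorm v.asIdeal : ℕ) : 𝓞 K)) := by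
    rw [← Polynomial.eval₂_at_apply, ← Polynomial.eval₂_at_apply, map_natCast, map_natCast, h1]
  have hrd : rd v ((X - C (φ.eval (t : 𝓞 K))) * f) =
      rd v ((X - C (φ.eval ((t % Ideal.absNorm v.asIdeal : ℕ) : 𝓞 K))) * f) := by
    unfold rd
    rw [Polynomial.map_mul, Polynomial.map_mul, Polynomial.map_sub, Polynomial.map_sub,
      Polynomial.map_C, Polynomial.map_C, hs]
  have hc : (algebraMap (𝓞 K) v.asIdeal.ResidueField).comp
      (evalRingHom (φ.eval (t : 𝓞 K))) =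
      (algebraMap (𝓞 K) v.asIdeal.ResidueField).comp
        (evalRingHom (φ.eval ((t % Ideal.absNorm v.asIdeal : ℕ) : 𝓞 K))) := by
    ext a
    · simp
    · simpa using hs
  unfold GoodK
  rw [hrd, hc, hs]

theorem kRoot (K : Type) [Field K] [NumberField K] (m : ℕ) (hm : 2 ≤ m)
    (hζ : ∃ ζ : K, IsPrimitiveRoot ζ m) :
    {v : HeightOneSpectrum (𝓞 K) | (Ideal.absNorm v.asIdeal).Prime ∧
      ¬ m ∣ Ideal.absNorm v.asIdeal - 1}.Finite := by
  classical
  obtain ⟨ζ, hζ⟩ := hζ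
  have hm0 : 0 < m := by omega
  obtain ⟨z, hz⟩ : ∃ z : 𝓞 K, algebraMap (𝓞 K) K z = ζ :=
    ⟨⟨ζ, hζ.isIntegral hm0⟩, rfl⟩
  have hz' : IsPrimitiveRoot z m := by
    rw [← hz] at hζ
    exact hζ.of_map_of_injective (RingOfIntegers.coe_injective)
  have hfin : (⋃ d ∈ Finset.Ico 1 m, {v : HeightOneSpectrum (𝓞 K) | z ^ d - 1 ∈ v.asIdeal}).Finite := by
    refine Set.Finite.biUnion (Finset.finite_toSet _) fun d hd => ?_
    have hd' := Finset.mem_Ico.1 (Finset.mem_coe.1 hd)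
    refine finite_mem _ fun h => ?_
    exact hz'.pow_ne_one_of_pos_of_lt (by omega) hd'.2 (sub_eq_zero.1 h)
  refine hfin.subset ?_
  rintro v ⟨hv, hnd⟩
  by_contra hno
  apply hnd
  have hcard := card_res v
  have : Fact (Ideal.absNorm v.asIdeal).Prime := ⟨hv⟩
  have hF : Finite v.asIdeal.ResidueField := Nat.finite_of_card_ne_zero (by
    rw [hcard]
    exact hv.ne_zero)
  have : Fintype v.asIdeal.ResidueField := Fintype.ofFinite _
  set w : v.asIdeal.ResidueField := algebraMap (𝓞 K) v.asIdeal.ResidueField z with hw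
  have hw1 : w ^ m = 1 := by
    rw [hw, ← map_pow, hz'.pow_eq_one, map_one]
  have hw0 : w ≠ 0 := by
    intro h
    rw [h, zero_pow (by omega)] at hw1
    exact zero_ne_one hw1
  have hprim : orderOf w = m := by
    rw [orderOf_eq_iff hm0]
    refine ⟨hw1, fun d hd hd0 h => hno ?_⟩
    rw [Set.mem_iUnion₂]
    refine ⟨d, Finset.mem_Ico.2 ⟨hd0, hd⟩, ?_⟩
    show z ^ d - 1 ∈ v.asIdeal
    rw [← Ideal.algebraMap_residueField_eq_zero, map_sub, map_pow, map_one, ← hw, h, sub_self]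
  have h3 : w ^ (Fintype.card v.asIdeal.ResidueField - 1) = 1 := FiniteField.pow_card_sub_one_eq_one w hw0
  rw [← Nat.card_eq_fintype_card, hcard] at h3
  rw [← hprim]
  exact orderOf_dvd_of_pow_eq_one h3

end Pool.Agent.Helper62.BM
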