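import Pool.Agent.Helper62.BM.Main
import Pool.Agent.Helper62.BM.KMod
import Pool.Agent.Helper4.BM.KFewK
import Pool.Agent.Helper12.BM.KFewG
import Pool.Agent.Helper13.BM.KInd
import Pool.Agent.Helper15.BM.KLie
import Pool.Agent.Helper18.BM.HK
import Pool.Agent.Helper34.BK.KB
import Pool.Agent.Helper61.BM.KCon
import Pool.Agent.Helper68.BM.KChart
import Pool.Agent.Helper68.BM.KRank
import Pool.Agent.Helper72.BM.KNV

/-!
# Assembly for the cyclic covers
-/

set_option autoImplicit false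

namespace Pool.Agent.Helper62.BM

theorem kCon : K_Con :=
  Pool.Agent.Helper61.BM.kcon Pool.Agent.Helper72.BM.eDet (Pool.Agent.Helper34.BK.kLI hyps)
    (Pool.Agent.Helper34.BK.kLID hyps)
    (Pool.Agent.Helper34.BK.kComm hyps Pool.Agent.Helper68.BM.k_rank)
    (Pool.Agent.Helper34.BK.kNoForm hyps) Pool.Agent.Helper68.BM.k_rank
    Pool.Agent.Helper15.BM.klie

theorem kInd : K_Ind :=
  Pool.Agent.Helper13.BM.kInd kCon Pool.Agent.Helper68.BM.kChart Pool.Agent.Helper72.BM.eDet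

theorem kNV : K_NV :=
  Pool.Agent.Helper72.BM.knv kInd Pool.Agent.Helper72.BM.emb Pool.Agent.Helper12.BM.tau

theorem kFewG : K_FewG :=
  Pool.Agent.Helper12.BM.kFewG Pool.Agent.Helper4.BM.step kNV Pool.Agent.Helper12.BM.frac
    Pool.Agent.Helper18.BM.khwb Pool.Agent.Helper18.BM.khwdeg Pool.Agent.Helper18.BM.khwrank
    Pool.Agent.Helper72.BM.eDet

theorem kFewK : K_FewK := Pool.Agent.Helper4.BM.kFewK kFewG fewG

end Pool.Agent.Helper62.BM
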