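import Pool.Agent.Helper62.BM.Main
import Pool.Agent.Helper62.BM.LMod
import Pool.Agent.Helper62.BL.FewG
import Pool.Agent.Helper62.BL.HW
import Pool.Agent.Helper62.BL.NVL
import Pool.Agent.Helper62.BL.PS
import Pool.Agent.Helper62.BL.ResL
import Pool.Agent.Helper4.BL.FewK
import Pool.Agent.Helper13.BL.Ind
import Pool.Agent.Helper13.BL.Lagr
import Pool.Agent.Helper15.BL.CommC
import Pool.Agent.Helper15.BL.HS
import Pool.Agent.Helper15.BL.LI
import Pool.Agent.Helper18.BL.HR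
import Pool.Agent.Helper38.BL.Van
import Pool.Agent.Helper41.BL.E
import Pool.Agent.Helper41.BL.EQ
import Pool.Agent.Helper61.BL.LCon

/-!
# Assembly: the level curves
-/

set_option autoImplicit false

namespace Pool.Agent.Helper62.BM

theorem lCon : L_Con :=
  Pool.Agent.Helper61.BL.l_con l_Res l_PS (Pool.Agent.Helper15.BL.l_li Pool.Agent.Helper15.BL.l_hs)
    (Pool.Agent.Helper15.BL.l_comm Pool.Agent.Helper15.BL.l_hs
      (Pool.Agent.Helper15.BL.l_li Pool.Agent.Helper15.BL.l_hs))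
    Pool.Agent.Helper38.BL.van Pool.Agent.Helper15.BM.lie

theorem lInd : L_Ind := Pool.Agent.Helper13.BL.l_Ind lCon Pool.Agent.Helper13.BL.l_Lagr

theorem lFewG : L_FewG :=
  FG.fewG Pool.Agent.Helper4.BM.step
    (l_NV lInd Pool.Agent.Helper72.BM.emb Pool.Agent.Helper12.BM.tau)
    Pool.Agent.Helper12.BM.frac l_HWb l_HWdeg l_HWiso Pool.Agent.Helper18.BL.l_HWrank
    Pool.Agent.Helper72.BM.eDet Pool.Agent.Helper41.BL.l_EQ Pool.Agent.Helper41.BL.l_QfDet
    Pool.Agent.Helper41.BL.l_E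

theorem lFewK : L_FewK := Pool.Agent.Helper4.BL.l_FewK lFewG

end Pool.Agent.Helper62.BM
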