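import Pool.Agent.Helper4.BM.Step
import Pool.Agent.Helper12.BM.Frac
import Pool.Agent.Helper12.BM.Leib
import Pool.Agent.Helper12.BM.Tau
import Pool.Agent.Helper12.BM.FewG
import Pool.Agent.Helper12.BM.HWdet
import Pool.Agent.Helper13.BM.Chart2
import Pool.Agent.Helper13.BM.Ind
import Pool.Agent.Helper15.BM.Lie
import Pool.Agent.Helper18.BM.HW
import Pool.Agent.Helper34.BM.Comm
import Pool.Agent.Helper34.BM.LI
import Pool.Agent.Helper36.BM.Res
import Pool.Agent.Helper61.BM.ConB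
import Pool.Agent.Helper68.BM.Rank
import Pool.Agent.Helper72.BM.Emb
import Pool.Agent.Helper72.BM.EQ
import Pool.Agent.Helper72.BM.Hor
import Pool.Agent.Helper72.BM.Mat
import Pool.Agent.Helper72.BM.NV
import Pool.Agent.Helper72.BM.Sieve
import Pool.Agent.Helper72.BM.Modp
import Pool.Agent.Helper90.BM.FewKMain
import Pool.Agent.Helper90.BM.DPP

/-!
# Assembly
-/

set_option autoImplicit false

namespace Pool.Agent.Helper62.BM

theorem hyps : Pool.Agent.Helper34.BM.Hyps :=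
  ⟨Pool.Agent.Helper12.BM.pcv, Pool.Agent.Helper12.BM.pcvT, Pool.Agent.Helper12.BM.pcvD,
    Pool.Agent.Helper12.BM.frac, Pool.Agent.Helper36.BM.res⟩

theorem li : S_LI :=
  Pool.Agent.Helper34.BM.li Pool.Agent.Helper12.BM.pcv Pool.Agent.Helper36.BM.res
    Pool.Agent.Helper12.BM.frac

theorem comm : S_Comm :=
  Pool.Agent.Helper34.BM.comm hyps Pool.Agent.Helper68.BM.rank Pool.Agent.Helper72.BM.qbHor
    Pool.Agent.Helper72.BM.eq Pool.Agent.Helper72.BM.qxDet

theorem con : S_Con :=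
  Pool.Agent.Helper61.BM.con li comm Pool.Agent.Helper68.BM.rank Pool.Agent.Helper72.BM.qbHor
    Pool.Agent.Helper72.BM.eq Pool.Agent.Helper72.BM.eDet Pool.Agent.Helper72.BM.qxDet
    Pool.Agent.Helper15.BM.lie

theorem ind2 : S_Ind2 :=
  Pool.Agent.Helper13.BM.ind2 con Pool.Agent.Helper72.BM.eDet Pool.Agent.Helper72.BM.qxDet

theorem fewG : S_FewG :=
  Pool.Agent.Helper12.BM.fewG Pool.Agent.Helper4.BM.step
    (Pool.Agent.Helper72.BM.nv2 ind2 Pool.Agent.Helper72.BM.emb Pool.Agent.Helper12.BM.tau)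
    Pool.Agent.Helper12.BM.frac Pool.Agent.Helper18.BM.hwb Pool.Agent.Helper18.BM.hwdeg
    Pool.Agent.Helper18.BM.hwiso Pool.Agent.Helper72.BM.eDet Pool.Agent.Helper72.BM.qxDet
    Pool.Agent.Helper12.BM.hwdet

theorem fewK : S_FewK := Pool.Agent.Helper90.BM.fewK_of_fewG fewG

end Pool.Agent.Helper62.BM
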