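import Pool.Agent.Helper62.BM.Stm2

/-!
# The stronger forms: all entries of the Hasse-Witt matrix
-/

set_option autoImplicit false

open Polynomial Matrix Finset Filter

namespace Pool.Agent.Helper62.BM

/-- The coordinates of an isotropic frame `(Y₁, Y₂)` with `det Y₁ ≠ 0`: the entries of `Y₁` and the
entries `i ≤ j` of `S`. -/
abbrev Vars (g : ℕ) : Type := (Fin g × Fin g) ⊕ Up g

/-- The coordinates of the frame. -/
noncomputable def frv {F : Type} [Field F] {g : ℕ} (Q : Matrix (Fin (2 * g)) (Fin (2 * g)) F)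
    (Y : Matrix (Fin g) (Fin (2 * g)) F) : Vars g → F :=
  Sum.elim (fun s => Y s.1 (lo s.2)) fun s => Sm Q Y s.1.1 s.1.2

/-- The chart with all coordinates. Proof. A relation `G (Y₁, S) = 0` of minimal degree. The
matrices `A = (0, W; 0, 0)` give `∂G/∂S = 0` (as in `S_Chart`), so `G ∈ k[Y₁]`. For every `B` the matrix
`A = (B, C; 0, E)` with `Eᵀ = - Q₁₂⁻¹ B Q₁₂`, `C = B Q₁₁ Q₁₂⁻ᵀ` is in the Lie algebra and acts by
`Y₁ ↦ Y₁ B`: `∑_i Y_(i, l) (∂G/∂Y_(i, m)) (Y) = 0` for all `l, m`, so `(∂G/∂Y_(i, m)) (Y) = 0`. -/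
def S_Chart2 : Prop :=
  ∀ (k L : Type) [Field k] [CharZero k] [Field L] [Algebra k L] (g : ℕ)
    (Q : Matrix (Fin (2 * g)) (Fin (2 * g)) k) (Y : Matrix (Fin g) (Fin (2 * g)) L),
    Qᵀ = -Q → Q.submatrix hi hi = 0 → (Q.submatrix lo hi).det ≠ 0 →
    (Y.submatrix id lo).det ≠ 0 →
    (∀ A : Matrix (Fin (2 * g)) (Fin (2 * g)) k, A * Q + Q * Aᵀ = 0 →
      ∀ G : MvPolynomial (Fin g × Fin (2 * g)) k,
        MvPolynomial.aeval (fun s : Fin g × Fin (2 * g) => Y s.1 s.2) G = 0 →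
        ∑ s : Fin g × Fin (2 * g), (Y * A.map (algebraMap k L)) s.1 s.2 *
          MvPolynomial.aeval (fun s : Fin g × Fin (2 * g) => Y s.1 s.2)
            (MvPolynomial.pderiv s G) = 0) →
    AlgebraicIndependent k (frv (Q.map (algebraMap k L)) Y)

/-- N6'. As `S_Ind`, for all coordinates (use `S_Chart2`). -/
def S_Ind2 : Prop :=
  ∀ (g : ℕ), 1 ≤ g → ∀ (U : Ultrafilter ℕ) (C : ℕ → Type) [∀ i, Field (C i)] (p : ℕ → ℕ)
    [∀ i, Fact (p i).Prime] [∀ i, CharP (C i) (p i)],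
    (∀ N : ℕ, ∀ᶠ i in (U : Filter ℕ), N < p i) → ∀ (a : ∀ i, Fin (2 * g) → C i),
    (∀ i, Function.Injective (a i)) → ∀ (D : ∀ i, Der (KX (C i))),
    (∀ i, IsDer (D i)) → ∀ (τ : ∀ i, KX (C i) →+* KX (C i)),
    (∀ i q, τ i (ι (C i) q) = ι (C i) (expand (C i) (p i) q)) →
    ∀ (f' : KX (UP U fun i => KX (C i)) →+* UP U fun i => KX (C i)),
    (∀ q : Polynomial (∀ i, KX (C i)), f' (ι _ (q.map (mk U))) =
        mk U fun i => (q.map (Pi.evalRingHom (fun i => KX (C i)) i)).eval₂ (τ i) (tX (C i))) →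
    (∀ (Dk : Der (KX (UP U fun i => KX (C i)))),
      IsDer Dk → ∀ z, f' (Dk z) = der U D (f' z)) →
    ∀ (Y : ∀ i, Matrix (Fin g) (Fin (2 * g)) (KX (C i))),
    (∀ i j l, D i ((Y i * Em (aX (a i))) j l) =
      ((Y i * Em (aX (a i))) * Bm (tX (C i)) (aX (a i))) j l) →
    (∀ i, ((Y i).submatrix id lo).det ≠ 0) →
    ∀ G : MvPolynomial (Vars g) (KX (UP U fun i => KX (C i))),
      MvPolynomial.eval₂ f' (fun s : Vars g => mk U fun i =>
        frv (Qx (tX (C i)) (aX (a i))) (Y i) s) G = 0 → G = 0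

/-- The nonvanishing for all coordinates. -/
def S_NV2 : Prop :=
  ∀ (g : ℕ), 1 ≤ g → ∀ (e A₀ β : ℕ), ∃ p₀ : ℕ, ∀ (p : ℕ) [Fact p.Prime] (C : Type) [Field C]
    [CharP C p], p₀ ≤ p → ∀ (a : Fin (2 * g) → C), Function.Injective a →
    ∀ (D : Der (KX C)), IsDer D → ∀ (Y : Matrix (Fin g) (Fin (2 * g)) (KX C)),
    (∀ i j, D ((Y * Em (aX a)) i j) = ((Y * Em (aX a)) * Bm (tX C) (aX a)) i j) →
    (Y.submatrix id lo).det ≠ 0 → NVp C p (frv (Qx (tX C) (aX a)) Y) e A₀ β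

/-- The result over a domain, for a polynomial `G` in the entries of the Hasse-Witt matrix.
Proof. `S_Step` with `σ = Vars g`, `P = 1` : `2 δ' Y = Y₁ (2 δ' 1 | (4 S + Q'₁₁) adj(Q'₁₂ᵀ))`, `Q' = 2 Qx`,
`δ' = det Q'₁₂`; the `Z l` are `Z 0 = G (Y₁)` and the monomials of degree `≤ deg G` in the entries of
`2 δ' Y`; `q Y' = Y β`, `q = 2 f(X) det E`. -/
def S_FewG : Prop :=
  ∀ (g : ℕ), 1 ≤ g → ∀ (A : Type) [CommRing A] [IsDomain A] [CharZero A] (a : Fin (2 * g) → A),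
    Function.Injective a → ∀ G : MvPolynomial (Fin g × Fin g) A[X], G ≠ 0 →
    ∀ ε : ℝ, 0 < ε → ∃ (p₀ : ℕ) (a₀ : A), a₀ ≠ 0 ∧
      ∀ (p : ℕ) [Fact p.Prime] (k : Type) [Field k] [CharP k p] (φ : A →+* k), p₀ ≤ p →
      φ a₀ ≠ 0 → ∀ T : Finset k, (∀ t ∈ T, t ^ p = t ∧
        MvPolynomial.eval₂ ((evalRingHom t).comp (mapRingHom φ)) (fun s : Fin g × Fin g =>
          (YX p g (fun j => φ (a j)) s.1 (lo s.2)).eval t) G = 0) → (T.card : ℝ) ≤ ε * p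

end Pool.Agent.Helper62.BM
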