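import Pool.Agent.Helper62.BM.Stm3

/-!
# The places of a number field
-/

set_option autoImplicit false

open Polynomial Matrix Finset NumberField IsDedekindDomain

namespace Pool.Agent.Helper62.BM

/-- The Hasse-Witt matrix of `y ^ 2 = F` over a field with `q` elements: the entry `(i, j)`,
`1 ≤ i, j ≤ g`, is the coefficient of `x ^ (q i - j)` in `F ^ ((q - 1) / 2)`. -/
noncomputable def hasseWitt {R : Type} [CommRing R] (q g : ℕ) (F : R[X]) :
    Matrix (Fin g) (Fin g) R :=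
  Matrix.of fun i j => (X ^ ((j : ℕ) + 1) * F ^ ((q - 1) / 2)).coeff (q * ((i : ℕ) + 1))

/-- The member `(x - φ(t)) f(x)` of the family. -/
noncomputable def memb {K : Type} [Field K] [NumberField K] (f φ : (𝓞 K)[X]) (t : ℕ) :
    (𝓞 K)[X] :=
  (X - C (φ.eval (t : 𝓞 K))) * f

/-- The reduction at `v`. -/
noncomputable def rd {K : Type} [Field K] [NumberField K] (v : HeightOneSpectrum (𝓞 K))
    (F : (𝓞 K)[X]) : v.asIdeal.ResidueField[X] :=
  F.map (algebraMap (𝓞 K) v.asIdeal.ResidueField)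

/-- `y ^ 2 = F`, where `F` has degree `n`, has good ordinary reduction at `v`. -/
def GoodOrd {K : Type} [Field K] [NumberField K] (g n : ℕ) (F : (𝓞 K)[X])
    (v : HeightOneSpectrum (𝓞 K)) : Prop :=
  (2 : 𝓞 K) ∉ v.asIdeal ∧ (rd v F).natDegree = n ∧ (rd v F).Separable ∧
    (hasseWitt (Ideal.absNorm v.asIdeal) g (rd v F)).det ≠ 0

/-- The polynomial `G` in the moving branch point `s` and the entries of the Hasse-Witt matrix does
not vanish at `v`. -/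
def Avoids {K : Type} [Field K] [NumberField K] (g : ℕ)
    (G : MvPolynomial (Fin g × Fin g) (𝓞 K)[X]) (s : 𝓞 K) (F : (𝓞 K)[X])
    (v : HeightOneSpectrum (𝓞 K)) : Prop :=
  MvPolynomial.eval₂ ((algebraMap (𝓞 K) v.asIdeal.ResidueField).comp (evalRingHom s))
    (fun u => hasseWitt (Ideal.absNorm v.asIdeal) g (rd v F) u.1 u.2) G ≠ 0

open Classical in
/-- The result at the places. Proof. `A = 𝓞 K [a_1, …, a_n] ⊂ AlgebraicClosure K`, the `a_j` the zeros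
of `f`; `Pool.Agent.Q102.AP.spread` (library, `R_pool_sql_team_seeded_3997aac3/Q102/AP/Spread.lean`)
gives for all but finitely many `v` a homomorphism `A[1/c] → k` with kernel over `v`, nonzero at
`a₀`. With `c` the leading coefficient of `f` the Hasse-Witt matrix of `(x - s) f` is
`c ^ ((p - 1) / 2) = ± 1` times `YX`: apply `S_FewG` to `det · G(s, W) · G(s, -W)`. The bad `t` are the `t` with
`φ(t)` bad or `f(φ(t)) = 0`: at most `deg φ` times the number of the bad `s`. -/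
def S_FewK : Prop :=
  ∀ (K : Type) [Field K] [NumberField K] (g : ℕ), 1 ≤ g → ∀ (f φ : (𝓞 K)[X]),
    f.natDegree = 2 * g → (f.map (algebraMap (𝓞 K) K)).Separable → 1 ≤ φ.natDegree →
    ∀ G : MvPolynomial (Fin g × Fin g) (𝓞 K)[X], G ≠ 0 → ∀ ε : ℝ, 0 < ε →
    {v : HeightOneSpectrum (𝓞 K) | (Ideal.absNorm v.asIdeal).Prime ∧
      ε * Ideal.absNorm v.asIdeal < (((range (Ideal.absNorm v.asIdeal)).filter
        fun t : ℕ => ¬ (GoodOrd g (2 * g + 1) (memb f φ t) v ∧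
          Avoids g G (φ.eval (t : 𝓞 K)) (memb f φ t) v)).card : ℝ)}.Finite

/-- The reduction modulo `v` of the member depends only on `t` modulo `v`. -/
def S_Mod : Prop :=
  ∀ (K : Type) [Field K] [NumberField K] (g n : ℕ) (f φ : (𝓞 K)[X])
    (G : MvPolynomial (Fin g × Fin g) (𝓞 K)[X]) (v : HeightOneSpectrum (𝓞 K)),
    (Ideal.absNorm v.asIdeal).Prime → ∀ t : ℕ,
    ((GoodOrd g n (memb f φ t) v ∧ Avoids g G (φ.eval (t : 𝓞 K)) (memb f φ t) v) ↔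
      (GoodOrd g n (memb f φ (t % Ideal.absNorm v.asIdeal)) v ∧
        Avoids g G (φ.eval ((t % Ideal.absNorm v.asIdeal : ℕ) : 𝓞 K))
          (memb f φ (t % Ideal.absNorm v.asIdeal)) v))

open Classical in
/-- The sieves, for a general predicate. Proof: the proofs of `allscales` and `mostscales` in the
library (`R_pool_sql_team_seeded_3997aac3/Q267/AP/Main.lean`) word for word. -/
def S_Sieve : Prop :=
  ∀ (K : Type) [Field K] [NumberField K] (Good : HeightOneSpectrum (𝓞 K) → ℕ → Prop),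
    (∀ v : HeightOneSpectrum (𝓞 K), (Ideal.absNorm v.asIdeal).Prime → ∀ t : ℕ,
      (Good v t ↔ Good v (t % Ideal.absNorm v.asIdeal))) →
    (∀ ε : ℝ, 0 < ε → {v : HeightOneSpectrum (𝓞 K) | (Ideal.absNorm v.asIdeal).Prime ∧
      ε * Ideal.absNorm v.asIdeal < (((range (Ideal.absNorm v.asIdeal)).filter
        fun t : ℕ => ¬ Good v t).card : ℝ)}.Finite) →
    (∀ η : ℝ, 0 < η → ∀ θ : ℝ, 0 < θ → θ < 1 → ∃ A : ℝ, ∀ X Q₀ Q₁ : ℕ, 1 ≤ Q₀ →
      ({t : ℕ | (1 ≤ t ∧ t ≤ X) ∧ ∃ Q, Q₀ ≤ Q ∧ Q ≤ Q₁ ∧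
        (Nat.card {v : HeightOneSpectrum (𝓞 K) // Ideal.absNorm v.asIdeal ≤ Q ∧ Good v t} : ℝ) <
        (1 - η) * Nat.card {v : HeightOneSpectrum (𝓞 K) //
          Ideal.absNorm v.asIdeal ≤ Q}}.ncard : ℝ) ≤
      A * (X * (Q₀ : ℝ) ^ (θ - 1) + (Q₁ : ℝ) ^ (1 + θ))) ∧
    (∀ η δ : ℝ, 0 < η → 0 < δ → ∃ C : ℝ, ∀ X Q₀ Q₁ : ℕ, 1 ≤ Q₀ → (X : ℝ) ^ δ * Q₀ ≤ Q₁ →
      ({t : ℕ | (1 ≤ t ∧ t ≤ X) ∧
        (Nat.card {j : ℕ // (Q₀ ≤ 2 ^ j ∧ 2 ^ j ≤ Q₁) ∧
          (1 - η) * Nat.card {v : HeightOneSpectrum (𝓞 K) // Ideal.absNorm v.asIdeal ≤ 2 ^ j} ≤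
          (Nat.card {v : HeightOneSpectrum (𝓞 K) // Ideal.absNorm v.asIdeal ≤ 2 ^ j ∧
            Good v t} : ℝ)} : ℝ) <
        (1 - η) * Nat.card {j : ℕ // Q₀ ≤ 2 ^ j ∧ 2 ^ j ≤ Q₁}}.ncard : ℝ) ≤ C * Q₁)

end Pool.Agent.Helper62.BM
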