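import Pool.Agent.Helper62.BM.Stm

/-!
# Ultraproducts of fields
-/

set_option autoImplicit false

open Polynomial Matrix Finset Filter

namespace Pool.Agent.Helper62.BM

section up

variable (U : Ultrafilter ℕ) (F : ℕ → Type) [∀ i, Field (F i)]

/-- The ideal of the sequences which are zero almost everywhere. -/
def upI : Ideal (∀ i, F i) where
  carrier := {x | ∀ᶠ i in (U : Filter ℕ), x i = 0}
  add_mem' {a b} ha hb := by
    filter_upwards [ha, hb] with i h1 h2
    simp [h1, h2]
  zero_mem' := by simp
  smul_mem' c x hx := by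
    filter_upwards [hx] with i h1
    simp [h1]

theorem mem_upI {x : ∀ i, F i} : x ∈ upI U F ↔ ∀ᶠ i in (U : Filter ℕ), x i = 0 := Iff.rfl

instance upI_max : (upI U F).IsMaximal := by
  rw [Ideal.isMaximal_iff]
  constructor
  · intro h
    rw [mem_upI] at h
    obtain ⟨i, hi⟩ := h.exists
    simp at hi
  · intro J x hJ hx hxJ
    classical
    have hU : ∀ᶠ i in (U : Filter ℕ), x i ≠ 0 := by
      rw [mem_upI] at hx
      exact (Ultrafilter.eventually_not (f := U)).2 hx
    have h1 : (fun i => (1 : F i) - (x i)⁻¹ * x i) ∈ upI U F := by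
      rw [mem_upI]
      filter_upwards [hU] with i hi
      rw [inv_mul_cancel₀ hi, sub_self]
    have h2 : (fun i => (x i)⁻¹ * x i) ∈ J := J.mul_mem_left (fun i => (x i)⁻¹) hxJ
    have h3 := J.add_mem (hJ h1) h2
    convert h3 using 1
    funext i
    simp

/-- The ultraproduct. -/
def UP : Type := (∀ i, F i) ⧸ upI U F

noncomputable instance : Field (UP U F) := Ideal.Quotient.field (upI U F)

variable {F}

/-- The class of a sequence. -/
noncomputable def mk : (∀ i, F i) →+* UP U F := Ideal.Quotient.mk (upI U F)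

theorem mk_surj : Function.Surjective (mk U (F := F)) := Ideal.Quotient.mk_surjective

theorem mk_eq_zero {x : ∀ i, F i} : mk U x = 0 ↔ ∀ᶠ i in (U : Filter ℕ), x i = 0 :=
  (Ideal.Quotient.eq_zero_iff_mem (I := upI U F)).trans (mem_upI U F)

theorem mk_eq {x y : ∀ i, F i} : mk U x = mk U y ↔ ∀ᶠ i in (U : Filter ℕ), x i = y i := by
  rw [← sub_eq_zero, ← map_sub, mk_eq_zero]
  simp only [Pi.sub_apply, sub_eq_zero]

theorem mk_inv (x : ∀ i, F i) : mk U (fun i => (x i)⁻¹) = (mk U x)⁻¹ := by
  by_cases h : mk U x = 0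
  · rw [h, _root_.inv_zero, mk_eq_zero]
    rw [mk_eq_zero] at h
    filter_upwards [h] with i hi
    rw [hi, _root_.inv_zero]
  · have h1 : mk U x * mk U (fun i => (x i)⁻¹) = 1 := by
      rw [← map_mul, ← map_one (mk U), mk_eq]
      rw [mk_eq_zero, ← Ultrafilter.eventually_not] at h
      filter_upwards [h] with i hi
      simp [hi]
    exact eq_inv_of_mul_eq_one_right h1

theorem charZero (h : ∀ n : ℕ, 0 < n → ∀ᶠ i in (U : Filter ℕ), (n : F i) ≠ 0) :
    CharZero (UP U F) := by
  refine charZero_of_inj_zero fun n hn => ?_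
  by_contra h0
  have h1 := h n (Nat.pos_of_ne_zero h0)
  rw [← map_natCast (mk U) n, mk_eq_zero] at hn
  obtain ⟨i, h2, h3⟩ := (h1.and hn).exists
  exact h2 (by simpa using h3)

/-- The map of ultraproducts. -/
noncomputable def mapU {F' : ℕ → Type} [∀ i, Field (F' i)] (f : ∀ i, F i →+* F' i) :
    UP U F →+* UP U F' :=
  Ideal.Quotient.lift (upI U F) ((mk U).comp (RingHom.pi fun i => (f i).comp (Pi.evalRingHom F i)))
    (by
      intro x hx
      rw [mem_upI] at hx
      rw [RingHom.comp_apply, mk_eq_zero]
      filter_upwards [hx] with i hi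
      show f i (x i) = 0
      rw [hi, map_zero])

theorem mapU_mk {F' : ℕ → Type} [∀ i, Field (F' i)] (f : ∀ i, F i →+* F' i) (x : ∀ i, F i) :
    mapU U f (mk U x) = mk U fun i => f i (x i) := rfl

/-- The additive map of ultraproducts. -/
noncomputable def derA (D : ∀ i, Der (F i)) : UP U F →+ UP U F :=
  QuotientAddGroup.map (upI U F).toAddSubgroup (upI U F).toAddSubgroup
    (AddMonoidHom.mk' (fun x i => D i (x i)) (by
      intro a b
      funext i
      simp))
    (by
      intro x hx
      have hx' : ∀ᶠ i in (U : Filter ℕ), x i = 0 := hx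
      show ∀ᶠ i in (U : Filter ℕ), D i (x i) = 0
      filter_upwards [hx'] with i hi
      simp [hi])

theorem derA_mk (D : ∀ i, Der (F i)) (x : ∀ i, F i) :
    derA U D (mk U x) = mk U fun i => D i (x i) := rfl

theorem derA_mul (D : ∀ i, Der (F i)) (a b : UP U F) :
    derA U D (a * b) = a * derA U D b + b * derA U D a := by
  obtain ⟨a, rfl⟩ := mk_surj U a
  obtain ⟨b, rfl⟩ := mk_surj U b
  rw [← map_mul, derA_mk, derA_mk, derA_mk, ← map_mul, ← map_mul, ← map_add]
  congr 1
  funext i
  simp

/-- The derivation of the ultraproduct. -/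
noncomputable def der (D : ∀ i, Der (F i)) : Der (UP U F) :=
  { toLinearMap := (derA U D).toIntLinearMap
    map_one_eq_zero' := by
      show derA U D 1 = 0
      have h := derA_mul U D 1 1
      rw [one_mul, one_mul] at h
      exact left_eq_add.1 h
    leibniz' := by
      intro a b
      show derA U D (a * b) = a • derA U D b + b • derA U D a
      rw [smul_eq_mul, smul_eq_mul]
      exact derA_mul U D a b }

theorem der_mk (D : ∀ i, Der (F i)) (x : ∀ i, F i) :
    der U D (mk U x) = mk U fun i => D i (x i) := rfl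

/-- The class of a sequence of matrices. -/
noncomputable def mkM {m n : Type} (M : ∀ i, Matrix m n (F i)) : Matrix m n (UP U F) :=
  Matrix.of fun j l => mk U fun i => M i j l

theorem mkM_apply {m n : Type} (M : ∀ i, Matrix m n (F i)) (j : m) (l : n) :
    mkM U M j l = mk U fun i => M i j l := rfl

end up

end Pool.Agent.Helper62.BM
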